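import Pool.Agent.Lib.MP_21a058_co.P.Defs

/-!
MP_21a058_co, T1 (letters (C1), (C2)): a laminar family of finite sets is covered by disjoint blocks of
size exactly `N` up to fewer than `N` elements of every member; the blocks of edges which lie at one
region of a laminar family of vertex sets.
-/

set_option autoImplicit false
set_option linter.unusedSectionVars false

namespace Pool.Agent.Lib.MP_21a058_co.Lim

open Finset
open Pool.Agent.Lib.MP_21a058_co.P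

/-- a set is cut into blocks of size `N` up to fewer than `N` elements -/
theorem chunk_one {α : Type} [DecidableEq α] {N : ℕ} (hN : 0 < N) (m : ℕ) :
    ∀ Z : Finset α, Z.card ≤ m → ∃ D : Finset (Finset α), (∀ B ∈ D, B.card = N ∧ B ⊆ Z) ∧
      (∀ B ∈ D, ∀ B' ∈ D, B ≠ B' → Disjoint B B') ∧ (Z \ D.biUnion id).card < N := by
  induction m with
  | zero =>
    intro Z hZ
    refine ⟨∅, fun B hB => absurd hB (notMem_empty B), fun B hB => absurd hB (notMem_empty B), ?_⟩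
    rw [biUnion_empty, sdiff_empty]
    omega
  | succ m ih =>
    intro Z hZ
    by_cases hlt : Z.card < N
    · refine ⟨∅, fun B hB => absurd hB (notMem_empty B), fun B hB => absurd hB (notMem_empty B), ?_⟩
      rw [biUnion_empty, sdiff_empty]
      exact hlt
    push Not at hlt
    obtain ⟨A, hAZ, hA⟩ := exists_subset_card_eq hlt
    have h1 : (Z \ A).card ≤ m := by
      have := card_sdiff_add_card_eq_card hAZ
      omega
    obtain ⟨D, hD1, hD2, hD3⟩ := ih (Z \ A) h1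
    refine ⟨insert A D, ?_, ?_, ?_⟩
    · intro B hB
      rcases mem_insert.1 hB with rfl | hB
      · exact ⟨hA, hAZ⟩
      · exact ⟨(hD1 B hB).1, (hD1 B hB).2.trans sdiff_subset⟩
    · have key : ∀ B ∈ D, Disjoint A B := by
        intro B hB
        exact (disjoint_sdiff (s := A) (t := Z)).mono_right (hD1 B hB).2
      intro B hB B' hB' hne
      rcases mem_insert.1 hB with hB | hB
      · rcases mem_insert.1 hB' with hB' | hB'
        · exact absurd (hB.trans hB'.symm) hne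
        · rw [hB]
          exact key B' hB'
      · rcases mem_insert.1 hB' with hB' | hB'
        · rw [hB']
          exact (key B hB).symm
        · exact hD2 B hB B' hB' hne
    · refine lt_of_le_of_lt (card_le_card ?_) hD3
      intro x hx
      rw [mem_sdiff, biUnion_insert, mem_union] at hx
      rw [mem_sdiff, mem_sdiff]
      exact ⟨⟨hx.1, fun h => hx.2 (Or.inl h)⟩, fun h => hx.2 (Or.inr h)⟩

/-- **(C1) chunk lemma** -/
theorem chunk {α : Type} [DecidableEq α] {N : ℕ} (hN : 0 < N) (m : ℕ) :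
    ∀ S : Finset (Finset α), S.card = m →
      (∀ X ∈ S, ∀ Y ∈ S, X ⊆ Y ∨ Y ⊆ X ∨ Disjoint X Y) →
    ∃ D : Finset (Finset α), (∀ B ∈ D, B.card = N) ∧ (∀ B ∈ D, ∃ X ∈ S, B ⊆ X) ∧
      (∀ B ∈ D, ∀ B' ∈ D, B ≠ B' → Disjoint B B') ∧
      ∀ X ∈ S, (X \ (D.filter fun B => B ⊆ X).biUnion id).card < N := by
  induction m with
  | zero =>
    intro S hS _
    rw [card_eq_zero] at hS
    subst hS
    exact ⟨∅, fun B hB => absurd hB (notMem_empty B), fun B hB => absurd hB (notMem_empty B),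
      fun B hB => absurd hB (notMem_empty B), fun X hX => absurd hX (notMem_empty X)⟩
  | succ m ih =>
    intro S hS hlam
    have hne : S.Nonempty := by
      rw [← card_pos]
      omega
    obtain ⟨X0, hX0, hmax⟩ := exists_max_image S card hne
    obtain ⟨D, hD1, hD2, hD3, hD4⟩ := ih (S.erase X0) (by rw [card_erase_of_mem hX0]; omega)
      (fun X hX Y hY => hlam X (mem_of_mem_erase hX) Y (mem_of_mem_erase hY))
    have hB : ∀ B ∈ D, B ⊆ X0 ∨ Disjoint B X0 := by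
      intro B hB
      obtain ⟨X, hX, hBX⟩ := hD2 B hB
      rcases hlam X (mem_of_mem_erase hX) X0 hX0 with h | h | h
      · exact Or.inl (hBX.trans h)
      · exact absurd (eq_of_subset_of_card_le h (hmax X (mem_of_mem_erase hX))).symm
          (ne_of_mem_erase hX)
      · exact Or.inr (h.mono_left hBX)
    obtain ⟨C, hC1, hC2, hC3⟩ := chunk_one hN (X0 \ D.biUnion id).card (X0 \ D.biUnion id) le_rfl
    refine ⟨D ∪ C, ?_, ?_, ?_, ?_⟩
    · intro B hB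
      rcases mem_union.1 hB with h | h
      · exact hD1 B h
      · exact (hC1 B h).1
    · intro B hB
      rcases mem_union.1 hB with h | h
      · obtain ⟨X, hX, h1⟩ := hD2 B h
        exact ⟨X, mem_of_mem_erase hX, h1⟩
      · exact ⟨X0, hX0, (hC1 B h).2.trans sdiff_subset⟩
    · have key : ∀ B ∈ D, ∀ B' ∈ C, Disjoint B B' := by
        intro B hB B' hB'
        rw [disjoint_left]
        intro x hx hx'
        have h1 := (hC1 B' hB').2 hx'
        rw [mem_sdiff] at h1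
        exact h1.2 (mem_biUnion.2 ⟨B, hB, hx⟩)
      intro B hB B' hB' hne
      rcases mem_union.1 hB with h | h <;> rcases mem_union.1 hB' with h' | h'
      · exact hD3 B h B' h' hne
      · exact key B h B' h'
      · exact (key B' h' B h).symm
      · exact hC2 B h B' h' hne
    · intro X hX
      by_cases hXX : X = X0
      · subst hXX
        refine lt_of_le_of_lt (card_le_card ?_) hC3
        intro x hx
        rw [mem_sdiff] at hx ⊢
        rw [mem_sdiff]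
        have h2 : ∀ B ∈ D ∪ C, B ⊆ X → x ∉ B := fun B hB1 hB2 hxB =>
          hx.2 (mem_biUnion.2 ⟨B, mem_filter.2 ⟨hB1, hB2⟩, hxB⟩)
        refine ⟨⟨hx.1, fun h => ?_⟩, fun h => ?_⟩
        · obtain ⟨B, hBD, hxB⟩ := mem_biUnion.1 h
          rcases hB B hBD with h3 | h3
          · exact h2 B (mem_union_left _ hBD) h3 hxB
          · exact disjoint_left.1 h3 hxB hx.1
        · obtain ⟨B, hBC, hxB⟩ := mem_biUnion.1 h
          exact h2 B (mem_union_right _ hBC) ((hC1 B hBC).2.trans sdiff_subset) hxB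
      · refine lt_of_le_of_lt (card_le_card ?_) (hD4 X (mem_erase.2 ⟨hXX, hX⟩))
        intro x hx
        rw [mem_sdiff] at hx ⊢
        refine ⟨hx.1, fun h => hx.2 ?_⟩
        obtain ⟨B, hB1, hxB⟩ := mem_biUnion.1 h
        obtain ⟨hB2, hB3⟩ := mem_filter.1 hB1
        exact mem_biUnion.2 ⟨B, mem_filter.2 ⟨mem_union_left _ hB2, hB3⟩, hxB⟩

variable {V E : Type} [Fintype V] [DecidableEq V] [Fintype E] [DecidableEq E] (a b : E → V)

/-- the edges of `B` located at `U`: both ends in `U`, but in no smaller member -/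
def loc (L : Finset (Finset V)) (B : Finset E) (U : Finset V) : Finset E :=
  B.filter fun e => a e ∈ U ∧ b e ∈ U ∧ ∀ Z ∈ L, a e ∈ Z → b e ∈ Z → U ⊆ Z

/-- the edges of `B` inside `Y` between different pieces -/
def btw (B : Finset E) (Y : Finset V) (P : Finset (Finset V)) : Finset E :=
  B.filter fun e => a e ∈ Y ∧ b e ∈ Y ∧ ∀ Z ∈ P, ¬ (a e ∈ Z ∧ b e ∈ Z)

variable {a b}
variable {L : Finset (Finset V)} {B : Finset E}

theorem mem_loc {U : Finset V} {e : E} : e ∈ loc a b L B U ↔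
    e ∈ B ∧ a e ∈ U ∧ b e ∈ U ∧ ∀ Z ∈ L, a e ∈ Z → b e ∈ Z → U ⊆ Z := by
  rw [loc, mem_filter]

theorem mem_btw {Y : Finset V} {P : Finset (Finset V)} {e : E} : e ∈ btw a b B Y P ↔
    e ∈ B ∧ a e ∈ Y ∧ b e ∈ Y ∧ ∀ Z ∈ P, ¬ (a e ∈ Z ∧ b e ∈ Z) := by
  rw [btw, mem_filter]

/-- the members of `L` and the whole set -/
theorem lam_insert (hlam : ∀ X ∈ L, ∀ Y ∈ L, X ⊆ Y ∨ Y ⊆ X ∨ Disjoint X Y) :
    ∀ X ∈ insert univ L, ∀ Y ∈ insert univ L, X ⊆ Y ∨ Y ⊆ X ∨ Disjoint X Y := by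
  intro X hX Y hY
  rcases mem_insert.1 hX with h | h
  · subst h
    exact Or.inr (Or.inl (subset_univ _))
  rcases mem_insert.1 hY with h' | h'
  · subst h'
    exact Or.inl (subset_univ _)
  · exact hlam X h Y h'

/-- every edge is located somewhere -/
theorem exists_loc (hlam : ∀ X ∈ L, ∀ Y ∈ L, X ⊆ Y ∨ Y ⊆ X ∨ Disjoint X Y) {e : E} (he : e ∈ B) :
    ∃ U ∈ insert univ L, e ∈ loc a b L B U := by
  obtain ⟨U, hU, hmin⟩ := exists_min_image
    ((insert univ L).filter fun Z => a e ∈ Z ∧ b e ∈ Z) card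
    ⟨univ, mem_filter.2 ⟨mem_insert_self _ _, mem_univ _, mem_univ _⟩⟩
  obtain ⟨hU1, hU2, hU3⟩ := mem_filter.1 hU
  refine ⟨U, hU1, mem_loc.2 ⟨he, hU2, hU3, fun Z hZ h1 h2 => ?_⟩⟩
  have h3 := hmin Z (mem_filter.2 ⟨mem_insert_of_mem hZ, h1, h2⟩)
  rcases lam_insert hlam U hU1 Z (mem_insert_of_mem hZ) with h | h | h
  · exact h
  · rw [eq_of_subset_of_card_le h h3]
  · exact absurd h1 (disjoint_left.1 h hU2)

/-- and only there -/
theorem loc_unique {U U' : Finset V} (hU : U ∈ insert univ L) (hU' : U' ∈ insert univ L) {e : E}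
    (h : e ∈ loc a b L B U) (h' : e ∈ loc a b L B U') : U = U' := by
  have key : ∀ {A A' : Finset V}, A' ∈ insert univ L → e ∈ loc a b L B A → e ∈ loc a b L B A' →
      A ⊆ A' := by
    intro A A' hA' h1 h2
    rcases mem_insert.1 hA' with h3 | h3
    · rw [h3]
      exact subset_univ _
    · exact (mem_loc.1 h1).2.2.2 A' h3 (mem_loc.1 h2).2.1 (mem_loc.1 h2).2.2.1
  exact Subset.antisymm (key hU' h h') (key hU h' h)

/-- the edges of `B` inside `Y` located at `U` -/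
def lin (a b : E → V) (L : Finset (Finset V)) (B : Finset E) (U Y : Finset V) : Finset E :=
  (loc a b L B U).filter fun e => a e ∈ Y ∧ b e ∈ Y

/-- **(C2), the number of regions** -/
theorem card_regions (hlam : ∀ X ∈ L, ∀ Y ∈ L, X ⊆ Y ∨ Y ⊆ X ∨ Disjoint X Y) {Y : Finset V}
    {P : Finset (Finset V)} (hPL : P ⊆ L) (hPY : ∀ x, x ∈ Y ↔ ∃ Z ∈ P, x ∈ Z) :
    ((insert univ L).filter fun U => (lin a b L B U Y ∩ btw a b B Y P).Nonempty).card ≤ P.card := by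
  classical
  obtain ⟨f, hf⟩ : ∃ f : V → ℕ, Function.Injective f :=
    ⟨fun x => (Fintype.equivFin V x).val, fun x y hxy =>
      (Fintype.equivFin V).injective (Fin.ext hxy)⟩
  obtain ⟨R, hR⟩ : ∃ R : Finset (Finset V), R = (insert univ L).filter fun U =>
      (lin a b L B U Y ∩ btw a b B Y P).Nonempty := ⟨_, rfl⟩
  rw [← hR]
  -- the data of one region
  have data : ∀ U ∈ R, ∃ z0 c y : V, z0 ∈ Y ∧ z0 ∈ U ∧ (∀ x ∈ Y, x ∈ U → f z0 ≤ f x) ∧
      (∀ Z ∈ L, c ∈ Z → z0 ∈ Z → U ⊆ Z) ∧ (∀ Z ∈ P, ¬ U ⊆ Z) ∧ y ∈ Y ∧ y ∈ U ∧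
      (∃ Z ∈ L, c ∈ Z ∧ y ∈ Z ∧ ¬ U ⊆ Z) ∧
      (∀ x ∈ Y, x ∈ U → (∃ Z ∈ L, c ∈ Z ∧ x ∈ Z ∧ ¬ U ⊆ Z) → f y ≤ f x) := by
    intro U hU
    rw [hR, mem_filter] at hU
    obtain ⟨hU1, e, he⟩ := hU
    obtain ⟨he1, he2⟩ := mem_inter.1 he
    obtain ⟨he3, haY, hbY⟩ := mem_filter.1 he1
    obtain ⟨-, haU, hbU, hloc⟩ := mem_loc.1 he3
    obtain ⟨-, -, -, hbtw⟩ := mem_btw.1 he2
    have hUP : ∀ Z ∈ P, ¬ U ⊆ Z := fun Z hZ h => hbtw Z hZ ⟨h haU, h hbU⟩
    obtain ⟨z0, hz0, hz0m⟩ := exists_min_image (Y.filter fun x => x ∈ U) f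
      ⟨a e, mem_filter.2 ⟨haY, haU⟩⟩
    obtain ⟨hz0Y, hz0U⟩ := mem_filter.1 hz0
    -- an end which is not together with `z0`
    have hc : ∃ c, c ∈ Y ∧ c ∈ U ∧ ∀ Z ∈ L, c ∈ Z → z0 ∈ Z → U ⊆ Z := by
      by_contra hcon
      push Not at hcon
      obtain ⟨Z1, h1, h2, h3, h4⟩ := hcon (a e) haY haU
      obtain ⟨Z2, k1, k2, k3, k4⟩ := hcon (b e) hbY hbU
      rcases hlam Z1 h1 Z2 k1 with h | h | h
      · exact k4 (hloc Z2 k1 (h h2) k2)
      · exact h4 (hloc Z1 h1 h2 (h k2))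
      · exact disjoint_left.1 h h3 k3
    obtain ⟨c, hcY, hcU, hc⟩ := hc
    obtain ⟨Zc, hZc, hcZ⟩ := (hPY c).1 hcY
    obtain ⟨y, hy, hym⟩ := exists_min_image (Y.filter fun x => x ∈ U ∧
      ∃ Z ∈ L, c ∈ Z ∧ x ∈ Z ∧ ¬ U ⊆ Z) f
      ⟨c, mem_filter.2 ⟨hcY, hcU, Zc, hPL hZc, hcZ, hcZ, hUP Zc hZc⟩⟩
    obtain ⟨hyY, hyU, hyZ⟩ := mem_filter.1 hy
    exact ⟨z0, c, y, hz0Y, hz0U, fun x h1 h2 => hz0m x (mem_filter.2 ⟨h1, h2⟩), hc, hUP, hyY, hyU,
      hyZ, fun x h1 h2 h3 => hym x (mem_filter.2 ⟨h1, h2, h3⟩)⟩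
  have hRL : ∀ U ∈ R, U ∈ insert univ L := by
    intro U hU
    rw [hR] at hU
    exact (mem_filter.1 hU).1
  have hex : ∀ U : Finset V, ∃ Z : Finset V, U ∈ R → Z ∈ P ∧ ∃ z0 c y : V, z0 ∈ Y ∧ z0 ∈ U ∧
      (∀ x ∈ Y, x ∈ U → f z0 ≤ f x) ∧
      (∀ Z ∈ L, c ∈ Z → z0 ∈ Z → U ⊆ Z) ∧ (∀ Z ∈ P, ¬ U ⊆ Z) ∧ y ∈ Y ∧ y ∈ U ∧
      (∃ Z ∈ L, c ∈ Z ∧ y ∈ Z ∧ ¬ U ⊆ Z) ∧
      (∀ x ∈ Y, x ∈ U → (∃ Z ∈ L, c ∈ Z ∧ x ∈ Z ∧ ¬ U ⊆ Z) → f y ≤ f x) ∧ y ∈ Z := by
    intro U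
    by_cases hU : U ∈ R
    · obtain ⟨z0, c, y, h1, h2, h3, h4, h5, h6, h7, h8, h9⟩ := data U hU
      obtain ⟨Z, hZ, hyZ⟩ := (hPY y).1 h6
      exact ⟨Z, fun _ => ⟨hZ, z0, c, y, h1, h2, h3, h4, h5, h6, h7, h8, h9, hyZ⟩⟩
    · exact ⟨∅, fun h => absurd h hU⟩
  choose g hg using hex
  refine card_le_card_of_injOn g (fun U hU => (hg U (mem_coe.1 hU)).1) ?_
  intro U hU U' hU' hgg
  rw [mem_coe] at hU hU'
  obtain ⟨hZ, z0, c, y, h1, h2, h3, h4, h5, h6, h7, ⟨Z1, h8, h9, h10, h11⟩, h12, h13⟩ := hg U hU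
  obtain ⟨hZ', z0', c', y', k1, k2, k3, k4, k5, k6, k7, ⟨Z1', k8, k9, k10, k11⟩, k12, k13⟩ :=
    hg U' hU'
  rw [← hgg] at hZ' k13
  -- the common piece
  have sub : ∀ A ∈ insert univ L, ∀ x, x ∈ A → x ∈ g U → ¬ A ⊆ g U → g U ⊆ A := by
    intro A hA x hxA hxg hn
    rcases lam_insert hlam (g U) (mem_insert_of_mem (hPL hZ)) A hA with h | h | h
    · exact h
    · exact absurd h hn
    · exact absurd hxA (disjoint_left.1 h hxg)
  have hgU : g U ⊆ U := sub U (hRL U hU) y h7 h13 (h5 _ hZ)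
  have hgU' : g U ⊆ U' := sub U' (hRL U' hU') y' k7 k13 (k5 _ hZ)
  have hgY : g U ⊆ Y := fun x hx => (hPY x).2 ⟨_, hZ, hx⟩
  have e1 : f y ≤ f y' := by
    refine h12 y' k6 (hgU k13) ?_
    rcases hlam (g U) (hPL hZ) Z1 h8 with h | h | h
    · exact ⟨Z1, h8, h9, h k13, h11⟩
    · exact ⟨g U, hPL hZ, h h9, k13, h5 _ hZ⟩
    · exact absurd h10 (disjoint_left.1 h h13)
  have e2 : f y' ≤ f y := by
    refine k12 y h6 (hgU' h13) ?_
    rcases hlam (g U) (hPL hZ) Z1' k8 with h | h | h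
    · exact ⟨Z1', k8, k9, h h13, k11⟩
    · exact ⟨g U, hPL hZ, h k9, h13, k5 _ hZ⟩
    · exact absurd k10 (disjoint_left.1 h k13)
  have hyy : y = y' := hf (le_antisymm e1 e2)
  subst hyy
  -- nested regions are equal
  have fin : ∀ {A A' : Finset V} {w0 d y d' : V}, A ∈ insert univ L → A' ∈ insert univ L →
      w0 ∈ Y → w0 ∈ A → (∀ x ∈ Y, x ∈ A → f w0 ≤ f x) →
      (∀ Z ∈ L, d ∈ Z → w0 ∈ Z → A ⊆ Z) → y ∈ Y → y ∈ A →
      (∃ Z ∈ L, d ∈ Z ∧ y ∈ Z ∧ ¬ A ⊆ Z) →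
      (∃ Z ∈ L, d' ∈ Z ∧ y ∈ Z ∧ ¬ A' ⊆ Z) →
      (∀ x ∈ Y, x ∈ A' → (∃ Z ∈ L, d' ∈ Z ∧ x ∈ Z ∧ ¬ A' ⊆ Z) → f y ≤ f x) → A ⊆ A' → A = A' := by
    intro A A' w0 d y d' hA hA' w1 w2 w3 w4 w5 w6 ⟨Z2, u1, u2, u3, u4⟩ ⟨Z3, v1, v2, v3, v4⟩ w7 hAA
    by_contra hne
    have hss : A ⊂ A' := Finset.ssubset_iff_subset_ne.2 ⟨hAA, hne⟩
    have hAL : A ∈ L := by
      rcases mem_insert.1 hA with h | h
      · exact absurd (subset_univ A') (h ▸ hss.2)
      · exact h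
    have hw : ∃ Z ∈ L, d' ∈ Z ∧ w0 ∈ Z ∧ ¬ A' ⊆ Z := by
      rcases hlam A hAL Z3 v1 with h | h | h
      · exact ⟨Z3, v1, v2, h w2, v4⟩
      · exact ⟨A, hAL, h v2, w2, hss.2⟩
      · exact absurd v3 (disjoint_left.1 h w6)
    have h1 := w7 w0 w1 (hAA w2) hw
    have h2 := w3 y w5 w6
    have h3 : w0 = y := hf (le_antisymm h2 h1)
    subst h3
    exact u4 (w4 Z2 u1 u2 u3)
  rcases lam_insert hlam U (hRL U hU) U' (hRL U' hU') with h | h | h
  · exact fin (hRL U hU) (hRL U' hU') h1 h2 h3 h4 h6 h7 ⟨Z1, h8, h9, h10, h11⟩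
      ⟨Z1', k8, k9, k10, k11⟩ k12 h
  · exact (fin (hRL U' hU') (hRL U hU) k1 k2 k3 k4 k6 k7 ⟨Z1', k8, k9, k10, k11⟩
      ⟨Z1, h8, h9, h10, h11⟩ h12 h).symm
  · exact absurd k7 (disjoint_left.1 h h7)

theorem mem_lin {U Y : Finset V} {e : E} : e ∈ lin a b L B U Y ↔
    e ∈ loc a b L B U ∧ a e ∈ Y ∧ b e ∈ Y := by
  rw [lin, mem_filter]

/-- located edge sets inside laminar sets are laminar -/
theorem lin_lam {M : Finset (Finset V)}
    (hM : ∀ X ∈ M, ∀ Y ∈ M, X ⊆ Y ∨ Y ⊆ X ∨ Disjoint X Y) {U U' Y Y' : Finset V}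
    (hU : U ∈ insert univ L) (hU' : U' ∈ insert univ L) (hY : Y ∈ M) (hY' : Y' ∈ M) :
    lin a b L B U Y ⊆ lin a b L B U' Y' ∨ lin a b L B U' Y' ⊆ lin a b L B U Y ∨
      Disjoint (lin a b L B U Y) (lin a b L B U' Y') := by
  by_cases hUU : U = U'
  · subst hUU
    rcases hM Y hY Y' hY' with h | h | h
    · left
      intro e he
      obtain ⟨h1, h2, h3⟩ := mem_lin.1 he
      exact mem_lin.2 ⟨h1, h h2, h h3⟩
    · right
      left
      intro e he
      obtain ⟨h1, h2, h3⟩ := mem_lin.1 he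
      exact mem_lin.2 ⟨h1, h h2, h h3⟩
    · right
      right
      rw [disjoint_left]
      intro e he he'
      exact disjoint_left.1 h (mem_lin.1 he).2.1 (mem_lin.1 he').2.1
  · right
    right
    rw [disjoint_left]
    intro e he he'
    exact hUU (loc_unique hU hU' (mem_lin.1 he).1 (mem_lin.1 he').1)

/-- a set of edges located at one region is inside a member or avoids it -/
theorem loc_con {U W : Finset V} (hW : W ∈ L) {C : Finset E} (hC : C ⊆ loc a b L B U) :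
    C ⊆ ins a b W ∨ Disjoint C (ins a b W) := by
  by_cases h : U ⊆ W
  · left
    intro e he
    obtain ⟨-, h1, h2, -⟩ := mem_loc.1 (hC he)
    exact (mem_ins a b).2 ⟨h h1, h h2⟩
  · right
    rw [disjoint_left]
    intro e he he'
    obtain ⟨h1, h2⟩ := (mem_ins a b).1 he'
    exact h ((mem_loc.1 (hC he)).2.2.2 W hW h1 h2)

variable (a b)

/-- **(C2)**: the rows of edges between the pieces -/
theorem exists_rows (hlam : ∀ X ∈ L, ∀ Y ∈ L, X ⊆ Y ∨ Y ⊆ X ∨ Disjoint X Y) (B : Finset E)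
    {mo N : ℕ} (hN : 0 < N) (M : Finset (Finset V)) (col : Finset V → Fin mo)
    (hcol : ∀ X ∈ M, ∀ Y ∈ M, col X = col Y → X ⊆ Y ∨ Y ⊆ X ∨ Disjoint X Y) :
    ∃ R : Finset (Finset E), (∀ β ∈ R, β ⊆ B) ∧ (∀ β ∈ R, β.card = N) ∧
      (∀ W ∈ L, ∀ β ∈ R, β ⊆ ins a b W ∨ Disjoint β (ins a b W)) ∧
      (∀ e, (R.filter fun β => e ∈ β).card ≤ mo) ∧
      ∀ Y ∈ M, ∀ Q ⊆ L, (∀ A ∈ Q, ∀ A' ∈ Q, A ≠ A' → Disjoint A A') → Q.biUnion id = Y →
        ∃ Bs ⊆ R, (∀ β ∈ Bs, ∀ γ ∈ Bs, β ≠ γ → Disjoint β γ) ∧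
          (∀ β ∈ Bs, β ⊆ B ∩ ins a b Y ∧ ∀ Z ∈ Q, Disjoint β (ins a b Z)) ∧
          ((B ∩ ins a b Y) \ (Q.biUnion (ins a b) ∪ Bs.biUnion id)).card ≤ N * Q.card := by
  classical
  -- the laminar family of one colour
  obtain ⟨S, hS⟩ : ∃ S : Fin mo → Finset (Finset E), S = fun j =>
      ((insert univ L) ×ˢ (M.filter fun Y => col Y = j)).image fun q => lin a b L B q.1 q.2 :=
    ⟨_, rfl⟩
  have memS : ∀ j X, X ∈ S j ↔ ∃ U ∈ insert univ L, ∃ Y ∈ M, col Y = j ∧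
      lin a b L B U Y = X := by
    intro j X
    rw [hS]
    constructor
    · intro h
      obtain ⟨q, hq, rfl⟩ := mem_image.1 h
      obtain ⟨h1, h2⟩ := mem_product.1 hq
      obtain ⟨h3, h4⟩ := mem_filter.1 h2
      exact ⟨q.1, h1, q.2, h3, h4, rfl⟩
    · rintro ⟨U, hU, Y, hY, hj, rfl⟩
      exact mem_image.2 ⟨(U, Y), mem_product.2 ⟨hU, mem_filter.2 ⟨hY, hj⟩⟩, rfl⟩
  have hSlam : ∀ j, ∀ X ∈ S j, ∀ X' ∈ S j, X ⊆ X' ∨ X' ⊆ X ∨ Disjoint X X' := by
    intro j X hX X' hX'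
    obtain ⟨U, hU, Y, hY, hj, rfl⟩ := (memS j X).1 hX
    obtain ⟨U', hU', Y', hY', hj', rfl⟩ := (memS j X').1 hX'
    exact lin_lam (M := M.filter fun Y => col Y = j) (fun A hA A' hA' =>
      hcol A (mem_filter.1 hA).1 A' (mem_filter.1 hA').1
        ((mem_filter.1 hA).2.trans (mem_filter.1 hA').2.symm)) hU hU'
      (mem_filter.2 ⟨hY, hj⟩) (mem_filter.2 ⟨hY', hj'⟩)
  have hch := fun j => chunk hN (S j).card (S j) rfl (hSlam j)
  choose D hD1 hD2 hD3 hD4 using hch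
  have hDloc : ∀ j, ∀ β ∈ D j, ∃ U, β ⊆ loc a b L B U := by
    intro j β hβ
    obtain ⟨X, hX, h1⟩ := hD2 j β hβ
    obtain ⟨U, hU, Y, hY, hj, rfl⟩ := (memS j X).1 hX
    exact ⟨U, fun e he => (mem_lin.1 (h1 he)).1⟩
  refine ⟨univ.biUnion D, ?_, ?_, ?_, ?_, ?_⟩
  · intro β hβ
    obtain ⟨j, -, hj⟩ := mem_biUnion.1 hβ
    obtain ⟨U, hU⟩ := hDloc j β hj
    exact fun e he => (mem_loc.1 (hU he)).1
  · intro β hβ
    obtain ⟨j, -, hj⟩ := mem_biUnion.1 hβ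
    exact hD1 j β hj
  · intro W hW β hβ
    obtain ⟨j, -, hj⟩ := mem_biUnion.1 hβ
    obtain ⟨U, hU⟩ := hDloc j β hj
    exact loc_con hW hU
  · intro e
    have h1 : ((univ.biUnion D).filter fun β => e ∈ β) ⊆
        (univ : Finset (Fin mo)).biUnion fun j => (D j).filter fun β => e ∈ β := by
      intro β hβ
      obtain ⟨h2, h3⟩ := mem_filter.1 hβ
      obtain ⟨j, hj, h4⟩ := mem_biUnion.1 h2
      exact mem_biUnion.2 ⟨j, hj, mem_filter.2 ⟨h4, h3⟩⟩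
    calc ((univ.biUnion D).filter fun β => e ∈ β).card
        ≤ ((univ : Finset (Fin mo)).biUnion fun j => (D j).filter fun β => e ∈ β).card :=
          card_le_card h1
      _ ≤ (univ : Finset (Fin mo)).card * 1 := by
          refine card_biUnion_le_card_mul _ _ 1 fun j _ => ?_
          rw [card_le_one]
          intro β hβ γ hγ
          by_contra hne
          exact disjoint_left.1 (hD3 j β (mem_filter.1 hβ).1 γ (mem_filter.1 hγ).1 hne)
            (mem_filter.1 hβ).2 (mem_filter.1 hγ).2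
      _ = mo := by rw [card_univ, Fintype.card_fin, mul_one]
  · intro Y hY Q hQL _ hQY
    obtain ⟨j, hj⟩ : ∃ j, col Y = j := ⟨_, rfl⟩
    have hPY : ∀ x, x ∈ Y ↔ ∃ Z ∈ Q, x ∈ Z := by
      intro x
      rw [← hQY, mem_biUnion]
      rfl
    refine ⟨(D j).filter fun β => β ⊆ btw a b B Y Q, ?_, ?_, ?_, ?_⟩
    · intro β hβ
      exact mem_biUnion.2 ⟨j, mem_univ _, (mem_filter.1 hβ).1⟩
    · intro β hβ γ hγ hne
      exact hD3 j β (mem_filter.1 hβ).1 γ (mem_filter.1 hγ).1 hne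
    · intro β hβ
      obtain ⟨-, h1⟩ := mem_filter.1 hβ
      refine ⟨fun e he => ?_, fun Z hZ => ?_⟩
      · obtain ⟨h2, h3, h4, -⟩ := mem_btw.1 (h1 he)
        exact mem_inter.2 ⟨h2, (mem_ins a b).2 ⟨h3, h4⟩⟩
      · rw [disjoint_left]
        intro e he he'
        exact (mem_btw.1 (h1 he)).2.2.2 Z hZ ((mem_ins a b).1 he')
    · obtain ⟨R, hR⟩ : ∃ R : Finset (Finset V), R = (insert univ L).filter fun U =>
          (lin a b L B U Y ∩ btw a b B Y Q).Nonempty := ⟨_, rfl⟩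
      have hcR : R.card ≤ Q.card := by
        rw [hR]
        exact card_regions hlam hQL hPY
      -- at a region which is met, all edges inside `Y` lie between the pieces
      have hsub : ∀ U ∈ R, lin a b L B U Y ⊆ btw a b B Y Q := by
        intro U hU e he
        rw [hR, mem_filter] at hU
        obtain ⟨-, e0, he0⟩ := hU
        obtain ⟨h1, h2⟩ := mem_inter.1 he0
        obtain ⟨-, k1, k2, -⟩ := mem_loc.1 (mem_lin.1 h1).1
        obtain ⟨h3, h4, h5⟩ := mem_lin.1 he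
        obtain ⟨h6, h7, h8, h9⟩ := mem_loc.1 h3
        refine mem_btw.2 ⟨h6, h4, h5, fun Z hZ h10 => ?_⟩
        have h11 := h9 Z (hQL hZ) h10.1 h10.2
        exact (mem_btw.1 h2).2.2.2 Z hZ ⟨h11 k1, h11 k2⟩
      have hcov : (B ∩ ins a b Y) \ (Q.biUnion (ins a b) ∪
          ((D j).filter fun β => β ⊆ btw a b B Y Q).biUnion id) ⊆
          R.biUnion fun U => lin a b L B U Y \
            ((D j).filter fun β => β ⊆ lin a b L B U Y).biUnion id := by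
        intro e he
        rw [mem_sdiff, mem_union, not_or] at he
        obtain ⟨h1, h2, h3⟩ := he
        obtain ⟨h4, h5⟩ := mem_inter.1 h1
        obtain ⟨h6, h7⟩ := (mem_ins a b).1 h5
        have h8 : e ∈ btw a b B Y Q := mem_btw.2 ⟨h4, h6, h7, fun Z hZ h9 =>
          h2 (mem_biUnion.2 ⟨Z, hZ, (mem_ins a b).2 h9⟩)⟩
        obtain ⟨U, hU, h9⟩ := exists_loc (a := a) (b := b) hlam h4
        have h10 : e ∈ lin a b L B U Y := mem_lin.2 ⟨h9, h6, h7⟩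
        have hUR : U ∈ R := by
          rw [hR]
          exact mem_filter.2 ⟨hU, e, mem_inter.2 ⟨h10, h8⟩⟩
        refine mem_biUnion.2 ⟨U, hUR, mem_sdiff.2 ⟨h10, fun h11 => h3 ?_⟩⟩
        obtain ⟨β, hβ, h12⟩ := mem_biUnion.1 h11
        obtain ⟨h13, h14⟩ := mem_filter.1 hβ
        exact mem_biUnion.2 ⟨β, mem_filter.2 ⟨h13, h14.trans (hsub U hUR)⟩, h12⟩
      calc ((B ∩ ins a b Y) \ (Q.biUnion (ins a b) ∪
            ((D j).filter fun β => β ⊆ btw a b B Y Q).biUnion id)).card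
          ≤ (R.biUnion fun U => lin a b L B U Y \
            ((D j).filter fun β => β ⊆ lin a b L B U Y).biUnion id).card := card_le_card hcov
        _ ≤ R.card * N := by
            refine card_biUnion_le_card_mul _ _ N fun U hU => ?_
            have hU1 : U ∈ insert univ L := by
              rw [hR] at hU
              exact (mem_filter.1 hU).1
            exact (hD4 j _ ((memS j _).2 ⟨U, hU1, Y, hY, hj, rfl⟩)).le
        _ ≤ N * Q.card := by
            rw [mul_comm]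
            exact Nat.mul_le_mul_left _ hcR

end Pool.Agent.Lib.MP_21a058_co.Lim
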