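import Pool.Agent.Lib.MP_21a058_co.Z.Atoms

/-! Closed partitions: for every near-minimum cut `Y` there is a partition into at most `p`
classes such that `Y` is a union of classes and every near-minimum cut which crosses a
near-minimum union of classes is again a union of classes (MP_21a058_co). -/

set_option linter.unusedSectionVars false
set_option linter.unusedVariables false

namespace Pool.Agent.Lib.MP_21a058_co.Thin

open Finset
open scoped Classical

variable {V E : Type} [Fintype V]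

/-- `Z` is a union of classes of `c` -/
def Un (c : V → ℕ) (Z : Finset V) : Prop := ∀ x y, c x = c y → (x ∈ Z ↔ y ∈ Z)

/-- `Z` and `W` cross (all four corners are nonempty) -/
def Crs (Z W : Finset V) : Prop :=
  (∃ x, x ∈ Z ∧ x ∈ W) ∧ (∃ x, x ∈ Z ∧ x ∉ W) ∧ (∃ x, x ∈ W ∧ x ∉ Z) ∧ (∃ x, x ∉ W ∧ x ∉ Z)

/-- refinement of a state by a near-minimum cut `Z` which crosses a union `W` of classes; the
new classes refine the old ones -/
theorem St.stepC {v w : E → V} {R : Finset E} {Y : Finset V} {lam u m : ℕ} {c : V → ℕ}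
    (h : St v w R Y lam u m c)
    (hlam : ∀ X : Finset V, X.Nonempty → X ≠ univ → lam ≤ (dl v w R X).card)
    {W : Finset V} (hW : Un c W)
    {Z : Finset V} (hZ : (dl v w R Z).card ≤ lam + u) (hc : Crs Z W) (hs : ¬ Un c Z) :
    ∃ c', St v w R Y lam u (m + 1) c' := by
  obtain ⟨g1, g2, g3⟩ := h
  obtain ⟨z1, z2, z3, z4⟩ := hc
  have hs' : ∃ x y, c x = c y ∧ x ∈ Z ∧ y ∉ Z := by
    unfold Un at hs
    push Not at hs
    obtain ⟨x, y, hxy, hh⟩ := hs
    rcases hh with ⟨h1, h2⟩ | ⟨h1, h2⟩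
    · exact ⟨x, y, hxy, h1, h2⟩
    · exact ⟨y, x, hxy.symm, h2, h1⟩
  set c' : V → ℕ := fun x => 2 * c x + (if x ∈ Z then 1 else 0) with hc'
  have hcc : ∀ x y, c' x = c' y ↔ c x = c y ∧ (x ∈ Z ↔ y ∈ Z) := by
    intro x y
    simp only [hc']
    by_cases hx : x ∈ Z <;> by_cases hy : y ∈ Z <;> simp only [hx, hy, if_true, if_false] <;>
      constructor <;> intro hh
    · exact ⟨by omega, by simp⟩
    · omega
    · exact absurd hh (by omega)
    · exact absurd hh.2 (by simp)
    · exact absurd hh (by omega)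
    · exact absurd hh.2 (by simp)
    · exact ⟨by omega, by simp⟩
    · omega
  refine ⟨c', fun x y hxy => g1 x y ((hcc x y).1 hxy).1, ?_, fun x => ?_⟩
  · have e1 : (univ.image c').image (fun i => i / 2) = univ.image c := by
      rw [image_image]
      refine image_congr fun x _ => ?_
      simp only [Function.comp, hc']
      split_ifs <;> omega
    have e2 : ((univ.image c').image (fun i => i / 2)).card ≤ (univ.image c').card :=
      card_image_le
    have e3 : ((univ.image c').image (fun i => i / 2)).card ≠ (univ.image c').card := by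
      intro hh
      obtain ⟨x, y, hxy, hx, hy⟩ := hs'
      have e4 := card_image_iff.1 hh
      have e5 : c' x = c' y := e4 (by simp) (by simp) (by
        simp only [hc', hx, hy, if_true, if_false, hxy]
        omega)
      exact hy (((hcc x y).1 e5).2.1 hx)
    rw [e1] at e2 e3
    omega
  · by_cases hx : x ∈ Z
    · have e1 : cls c' (c' x) = cls c (c x) ∩ Z := by
        ext y
        rw [mem_cls, mem_inter, mem_cls, hcc]
        simp [hx]
      rw [e1]
      have e2 := dl_inter_union v w R (cls c (c x)) Z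
      have e3 := g3 x
      have e4 : lam ≤ (dl v w R (cls c (c x) ∪ Z)).card := by
        refine hlam _ ⟨x, mem_union_right _ hx⟩ fun hh => ?_
        by_cases hxW : x ∈ W
        · obtain ⟨y, hy1, hy2⟩ := z4
          have : y ∈ cls c (c x) ∪ Z := hh ▸ mem_univ y
          rw [mem_union, mem_cls] at this
          rcases this with h5 | h5
          · exact hy1 ((hW y x h5).2 hxW)
          · exact hy2 h5
        · obtain ⟨y, hy1, hy2⟩ := z3
          have : y ∈ cls c (c x) ∪ Z := hh ▸ mem_univ y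
          rw [mem_union, mem_cls] at this
          rcases this with h5 | h5
          · exact hxW ((hW y x h5).1 hy1)
          · exact hy2 h5
      have e5 : (m + 1) * u = m * u + u := by ring
      omega
    · have e1 : cls c' (c' x) = cls c (c x) \ Z := by
        ext y
        rw [mem_cls, mem_sdiff, mem_cls, hcc]
        simp [hx]
      rw [e1]
      have e2 := dl_sdiff_sdiff v w R (cls c (c x)) Z
      have e3 := g3 x
      have e4 : lam ≤ (dl v w R (Z \ cls c (c x))).card := by
        refine hlam _ ?_ fun hh => ?_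
        · by_cases hxW : x ∈ W
          · obtain ⟨y, hy1, hy2⟩ := z2
            refine ⟨y, ?_⟩
            rw [mem_sdiff, mem_cls]
            exact ⟨hy1, fun h5 => hy2 ((hW y x h5).2 hxW)⟩
          · obtain ⟨y, hy1, hy2⟩ := z1
            refine ⟨y, ?_⟩
            rw [mem_sdiff, mem_cls]
            exact ⟨hy1, fun h5 => hxW ((hW y x h5).1 hy2)⟩
        · have : x ∈ Z \ cls c (c x) := hh ▸ mem_univ x
          exact hx (mem_sdiff.1 this).1
      have e5 : (m + 1) * u = m * u + u := by ring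
      omega

/-- CLOSED PARTITION -/
theorem atomsC (v w : E → V) (R : Finset E) {τ : ℕ} (T : Fin τ → Finset E)
    (hTR : ∀ i, T i ⊆ R) (hd : ∀ i j, i ≠ j → Disjoint (T i) (T j))
    (hT : ∀ i, ConnOn v w (T i) univ) (lam u p : ℕ)
    (hlam : ∀ X : Finset V, X.Nonempty → X ≠ univ → lam ≤ (dl v w R X).card)
    (hp : (p + 1) * (lam + p * u) < 2 * τ * p) (Y : Finset V) (hY : Y.Nonempty)
    (hYu : Y ≠ univ) (hYd : (dl v w R Y).card ≤ lam + u) :
    ∃ c : V → ℕ, (univ.image c).card ≤ p ∧ Un c Y ∧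
      ∀ W : Finset V, (dl v w R W).card ≤ lam + u → Un c W →
        ∀ Z : Finset V, (dl v w R Z).card ≤ lam + u → Crs Z W → Un c Z := by
  by_contra hcon
  push Not at hcon
  have hp0 : 1 ≤ p := by
    rcases Nat.eq_zero_or_pos p with h0 | h0
    · subst h0; simp at hp
    · exact h0
  have key : ∀ m, m + 1 ≤ p → ∃ c, St v w R Y lam u (m + 1) c := by
    intro m
    induction m with
    | zero =>
      intro _
      refine ⟨fun x => if x ∈ Y then 1 else 0, fun x y hxy => ?_, ?_, fun x => ?_⟩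
      · by_cases hx : x ∈ Y <;> by_cases hy : y ∈ Y <;> simp [hx, hy] at hxy ⊢
      · obtain ⟨x, hx⟩ := hY
        obtain ⟨y, hy⟩ : ∃ y, y ∉ Y := by
          by_contra hh
          push Not at hh
          exact hYu (eq_univ_iff_forall.2 hh)
        have h1 : ({1, 0} : Finset ℕ) ⊆ univ.image (fun x => if x ∈ Y then 1 else 0) := by
          intro i hi
          rw [mem_insert, mem_singleton] at hi
          rcases hi with rfl | rfl
          · exact mem_image.2 ⟨x, mem_univ _, by simp [hx]⟩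
          · exact mem_image.2 ⟨y, mem_univ _, by simp [hy]⟩
        have h2 := card_le_card h1
        have h3 : ({1, 0} : Finset ℕ).card = 2 := by decide
        omega
      · by_cases hx : x ∈ Y
        · have : cls (fun x => if x ∈ Y then 1 else 0) (if x ∈ Y then 1 else 0) = Y := by
            ext y
            rw [mem_cls]
            by_cases hy : y ∈ Y <;> simp [hx, hy]
          simp only [this]
          omega
        · have : dl v w R (cls (fun x => if x ∈ Y then 1 else 0) (if x ∈ Y then 1 else 0)) =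
              dl v w R Y := by
            unfold dl
            refine filter_congr fun e _ => ?_
            rw [mem_cls, mem_cls]
            by_cases hy : v e ∈ Y <;> by_cases hz : w e ∈ Y <;> simp [hx, hy, hz]
          simp only [this]
          omega
    | succ m ih =>
      intro hm
      obtain ⟨c, hc⟩ := ih (by omega)
      obtain ⟨W, -, hWu, Z, hZ, hZW, hZu⟩ :=
        hcon c (hc.count T hTR hd hT (by omega) hp) hc.1
      exact hc.stepC hlam hWu hZ hZW hZu
  obtain ⟨c, hc⟩ := key (p - 1) (by omega)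
  have h1 := hc.count T hTR hd hT (by omega) hp
  have h2 := hc.2.1
  omega

/-- CLOSED PARTITION, along chains of crossings inside a family `P` of near-minimum cuts -/
theorem atomsG (v w : E → V) (R : Finset E) {τ : ℕ} (T : Fin τ → Finset E)
    (hTR : ∀ i, T i ⊆ R) (hd : ∀ i j, i ≠ j → Disjoint (T i) (T j))
    (hT : ∀ i, ConnOn v w (T i) univ) (lam u p : ℕ)
    (hlam : ∀ X : Finset V, X.Nonempty → X ≠ univ → lam ≤ (dl v w R X).card)
    (hp : (p + 1) * (lam + p * u) < 2 * τ * p) (Y : Finset V) (hY : Y.Nonempty)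
    (hYu : Y ≠ univ) (hYd : (dl v w R Y).card ≤ lam + u) :
    ∃ c : V → ℕ, (univ.image c).card ≤ p ∧ ∀ P : Finset V → Prop,
      (∀ Z, P Z → (dl v w R Z).card ≤ lam + u) →
      ∀ Z, Relation.ReflTransGen (fun W Z => P Z ∧ Crs Z W) Y Z → Un c Z := by
  obtain ⟨c, c1, c2, c3⟩ := atomsC v w R T hTR hd hT lam u p hlam hp Y hY hYu hYd
  refine ⟨c, c1, fun P hP Z hZ => ?_⟩
  have key : ∀ Z, Relation.ReflTransGen (fun W Z => P Z ∧ Crs Z W) Y Z →
      Un c Z ∧ (dl v w R Z).card ≤ lam + u := by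
    intro Z hZ
    induction hZ with
    | refl => exact ⟨c2, hYd⟩
    | tail _ h ih => exact ⟨c3 _ ih.2 ih.1 _ (hP _ h.1) h.2, hP _ h.1⟩
  exact (key Z hZ).1

/-- CLOSED PARTITION for a family `N` of near-minimum cuts without the root: three corners -/
theorem atomsN (v w : E → V) (r : V) (R : Finset E) {τ : ℕ} (T : Fin τ → Finset E)
    (hTR : ∀ i, T i ⊆ R) (hd : ∀ i j, i ≠ j → Disjoint (T i) (T j))
    (hT : ∀ i, ConnOn v w (T i) univ) (lam u p : ℕ)
    (hlam : ∀ X : Finset V, X.Nonempty → X ≠ univ → lam ≤ (dl v w R X).card)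
    (hp : (p + 1) * (lam + p * u) < 2 * τ * p) (N : Finset (Finset V))
    (hN : ∀ Y ∈ N, Y.Nonempty ∧ r ∉ Y ∧ (dl v w R Y).card ≤ lam + u) :
    ∀ Y ∈ N, ∃ c : V → ℕ, (univ.image c).card ≤ p ∧ (∀ x y, c x = c y → (x ∈ Y ↔ y ∈ Y)) ∧
      ∀ Z ∈ N, ∀ Z' ∈ N, (∀ x y, c x = c y → (x ∈ Z ↔ y ∈ Z)) →
        ((∃ x, x ∈ Z ∧ x ∈ Z') ∧ (∃ x, x ∈ Z ∧ x ∉ Z') ∧ ∃ x, x ∈ Z' ∧ x ∉ Z) →
        ∀ x y, c x = c y → (x ∈ Z' ↔ y ∈ Z') := by
  intro Y hY
  obtain ⟨y1, y2, y3⟩ := hN Y hY
  obtain ⟨c, c1, c2, c3⟩ := atomsC v w R T hTR hd hT lam u p hlam hp Y y1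
    (fun h => y2 (h ▸ mem_univ r)) y3
  refine ⟨c, c1, c2, fun Z hZ Z' hZ' hun hcr => ?_⟩
  obtain ⟨z1, z2, z3⟩ := hN Z hZ
  obtain ⟨w1, w2, w3⟩ := hN Z' hZ'
  obtain ⟨⟨x, hx1, hx2⟩, ⟨y, hy1, hy2⟩, ⟨z, hz1, hz2⟩⟩ := hcr
  exact c3 Z z3 hun Z' w3 ⟨⟨x, hx2, hx1⟩, ⟨z, hz1, hz2⟩, ⟨y, hy1, hy2⟩, ⟨r, z2, w2⟩⟩

end Pool.Agent.Lib.MP_21a058_co.Thin
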