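import Pool.Agent.Lib.MP_21a058_co.Thin.Defs

/-! Crossing components of near-minimum cuts at every scale and their atoms form one laminar
family (MP_21a058_co). -/

set_option linter.unusedSectionVars false
set_option linter.unusedVariables false

namespace Pool.Agent.Lib.MP_21a058_co.Lim

open Finset Pool.Agent.Lib.MP_21a058_co.Thin
open scoped Classical

variable {V E : Type} [Fintype V]

/-- The sets cross (the root is outside both). -/
def Crs (X Y : Finset V) : Prop :=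
  (∃ x, x ∈ X ∧ x ∈ Y) ∧ (∃ x, x ∈ X ∧ x ∉ Y) ∧ ∃ x, x ∈ Y ∧ x ∉ X

omit [Fintype V] in
theorem Crs.symm {X Y : Finset V} (h : Crs X Y) : Crs Y X := by
  obtain ⟨⟨x, h1, h2⟩, h3, h4⟩ := h
  exact ⟨⟨x, h2, h1⟩, h4, h3⟩

omit [Fintype V] in
theorem not_crs {X Y : Finset V} (h : ¬ Crs X Y) : X ⊆ Y ∨ Y ⊆ X ∨ Disjoint X Y := by
  by_contra hcon
  push Not at hcon
  obtain ⟨k1, k2, k3⟩ := hcon
  rw [not_subset] at k1 k2
  rw [not_disjoint_iff] at k3
  obtain ⟨x, hx1, hx2⟩ := k1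
  obtain ⟨y, hy1, hy2⟩ := k2
  obtain ⟨z, hz1, hz2⟩ := k3
  exact h ⟨⟨z, hz1, hz2⟩, ⟨x, hx1, hx2⟩, ⟨y, hy1, hy2⟩⟩

/-- Crossing inside the family `F`. -/
def rel (F : Finset (Finset V)) (X Y : Finset V) : Prop := X ∈ F ∧ Y ∈ F ∧ Crs X Y

omit [Fintype V] in
theorem rel.symm {F : Finset (Finset V)} {X Y : Finset V} (h : rel F X Y) : rel F Y X :=
  ⟨h.2.1, h.1, h.2.2.symm⟩

/-- `Y` and `Z` are joined by a chain of crossing members of `F`. -/
def lk (F : Finset (Finset V)) (Y Z : Finset V) : Prop := Relation.ReflTransGen (rel F) Y Z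

omit [Fintype V] in
theorem lk.symm {F : Finset (Finset V)} {X Y : Finset V} (h : lk F X Y) : lk F Y X := by
  unfold lk at *
  induction h with
  | refl => exact Relation.ReflTransGen.refl
  | tail _ hbc ih => exact Relation.ReflTransGen.head hbc.symm ih

omit [Fintype V] in
theorem lk.mono {F F' : Finset (Finset V)} (hF : F ⊆ F') {X Y : Finset V} (h : lk F X Y) :
    lk F' X Y := by
  unfold lk at *
  induction h with
  | refl => exact Relation.ReflTransGen.refl
  | tail _ hbc ih => exact ih.tail ⟨hF hbc.1, hF hbc.2.1, hbc.2.2⟩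

/-- The crossing component of `Y` in `F`. -/
noncomputable def comp (F : Finset (Finset V)) (Y : Finset V) : Finset (Finset V) :=
  F.filter (fun Z => lk F Y Z)

omit [Fintype V] in
theorem mem_comp {F : Finset (Finset V)} {Y Z : Finset V} : Z ∈ comp F Y ↔ Z ∈ F ∧ lk F Y Z := by
  unfold comp
  exact mem_filter

omit [Fintype V] in
theorem self_mem_comp {F : Finset (Finset V)} {Y : Finset V} (h : Y ∈ F) : Y ∈ comp F Y :=
  mem_comp.2 ⟨h, Relation.ReflTransGen.refl⟩

omit [Fintype V] in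
/-- Induction over a component from any of its members. -/
theorem comp_ind {F : Finset (Finset V)} {Y : Finset V} (P : Finset V → Prop) {Z0 : Finset V}
    (h0 : Z0 ∈ comp F Y) (hP : P Z0)
    (hs : ∀ A ∈ comp F Y, ∀ B ∈ comp F Y, P A → Crs A B → P B) : ∀ Z ∈ comp F Y, P Z := by
  intro Z hZ
  have h1 : lk F Z0 Z := by
    have a := (mem_comp.1 h0).2.symm
    have b := (mem_comp.1 hZ).2
    unfold lk at *
    exact a.trans b
  have h2 : ∀ Z, lk F Z0 Z → Z ∈ comp F Y ∧ P Z := by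
    intro Z h
    unfold lk at h
    induction h with
    | refl => exact ⟨h0, hP⟩
    | tail _ hbc ih =>
      have h3 : _ ∈ comp F Y := mem_comp.2 ⟨hbc.2.1, by
        have := (mem_comp.1 ih.1).2
        unfold lk at *
        exact this.tail hbc⟩
      exact ⟨h3, hs _ ih.1 _ h3 ih.2 hbc.2.2⟩
  exact (h2 Z h1).2

/-- The class of `x` under `in the same members of C`. -/
noncomputable def atom (C : Finset (Finset V)) (x : V) : Finset V :=
  univ.filter (fun y => ∀ Z ∈ C, x ∈ Z ↔ y ∈ Z)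

theorem mem_atom {C : Finset (Finset V)} {x y : V} :
    y ∈ atom C x ↔ ∀ Z ∈ C, x ∈ Z ↔ y ∈ Z := by
  unfold atom
  rw [mem_filter]
  exact ⟨fun h => h.2, fun h => ⟨mem_univ _, h⟩⟩

theorem self_mem_atom (C : Finset (Finset V)) (x : V) : x ∈ atom C x :=
  mem_atom.2 fun _ _ => Iff.rfl

theorem atom_eq {C : Finset (Finset V)} {x y : V} (h : y ∈ atom C x) : atom C y = atom C x := by
  have h' := mem_atom.1 h
  ext z
  rw [mem_atom, mem_atom]
  exact ⟨fun k Z hZ => (h' Z hZ).trans (k Z hZ), fun k Z hZ => (h' Z hZ).symm.trans (k Z hZ)⟩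

theorem atom_sub {C : Finset (Finset V)} {x : V} {Z : Finset V} (hZ : Z ∈ C) (hx : x ∈ Z) :
    atom C x ⊆ Z := fun _ hy => ((mem_atom.1 hy) Z hZ).1 hx

theorem atom_lam (C : Finset (Finset V)) (x y : V) :
    atom C x = atom C y ∨ Disjoint (atom C x) (atom C y) := by
  by_cases h : Disjoint (atom C x) (atom C y)
  · exact Or.inr h
  · rw [not_disjoint_iff] at h
    obtain ⟨z, h1, h2⟩ := h
    exact Or.inl ((atom_eq h1).symm.trans (atom_eq h2))

/-- The cut of an atom is covered by the cuts of the members. -/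
theorem dl_atom_le (v w : E → V) (W : Finset E) (C : Finset (Finset V)) (x : V) :
    (dl v w W (atom C x)).card ≤ ∑ Z ∈ C, (dl v w W Z).card := by
  have h : dl v w W (atom C x) ⊆ C.biUnion (fun Z => dl v w W Z) := by
    intro e he
    obtain ⟨h1, h2⟩ := mem_filter.1 he
    rw [mem_biUnion]
    by_contra hcon
    push Not at hcon
    have h3 : ∀ Z ∈ C, (v e ∈ Z ↔ w e ∈ Z) := by
      intro Z hZ
      by_contra h4
      exact hcon Z hZ (mem_filter.2 ⟨h1, h4⟩)
    refine h2 ⟨fun h4 => mem_atom.2 fun Z hZ => ((mem_atom.1 h4) Z hZ).trans (h3 Z hZ),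
      fun h4 => mem_atom.2 fun Z hZ => ((mem_atom.1 h4) Z hZ).trans (h3 Z hZ).symm⟩
  exact (card_le_card h).trans card_biUnion_le

omit [Fintype V] in
/-- A set which crosses no member of a component contains all of them, or is inside or outside
every one. -/
theorem out_or {F : Finset (Finset V)} {Y : Finset V} {Z' : Finset V}
    (h : ∀ Z ∈ comp F Y, ¬ Crs Z Z') :
    (∀ Z ∈ comp F Y, Z ⊆ Z') ∨ ∀ Z ∈ comp F Y, Z' ⊆ Z ∨ Disjoint Z Z' := by
  by_cases hc : ∀ Z ∈ comp F Y, Z' ⊆ Z ∨ Disjoint Z Z'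
  · exact Or.inr hc
  · left
    push Not at hc
    obtain ⟨Z0, h0, h1, h2⟩ := hc
    have h3 : Z0 ⊆ Z' := by
      rcases not_crs (h Z0 h0) with h4 | h4 | h4
      · exact h4
      · exact absurd h4 h1
      · exact absurd h4 h2
    refine comp_ind (fun Z => Z ⊆ Z') h0 h3 ?_
    intro A hA B hB hAZ hAB
    obtain ⟨⟨x, hx1, hx2⟩, ⟨y, hy1, hy2⟩, -⟩ := hAB
    rcases not_crs (h B hB) with h4 | h4 | h4
    · exact h4
    · exact absurd (h4 (hAZ hy1)) hy2
    · exact absurd (hAZ hx1) (disjoint_left.1 h4 hx2)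

/-- The atoms inside the unions of two components (in `F ⊆ F'`) are laminar. -/
theorem atoms_laminar {F F' : Finset (Finset V)} (hF : F ⊆ F') {Y Y' : Finset V} {x x' : V}
    (hx : ∃ Z ∈ comp F Y, x ∈ Z) (hx' : ∃ Z ∈ comp F' Y', x' ∈ Z) :
    atom (comp F Y) x ⊆ atom (comp F' Y') x' ∨ atom (comp F' Y') x' ⊆ atom (comp F Y) x ∨
      Disjoint (atom (comp F Y) x) (atom (comp F' Y') x') := by
  by_cases h1 : ∃ Z ∈ comp F Y, ∃ Z' ∈ comp F' Y', Z = Z' ∨ Crs Z Z'
  · -- the first component is inside the second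
    obtain ⟨Z, hZ, Z', hZ', hh⟩ := h1
    have h2 : ∀ A ∈ comp F Y, A ∈ comp F' Y' := by
      have hZF' : Z ∈ comp F' Y' := by
        rcases hh with rfl | hh
        · exact hZ'
        · refine mem_comp.2 ⟨hF (mem_comp.1 hZ).1, ?_⟩
          have a := (mem_comp.1 hZ').2
          unfold lk at *
          exact a.tail ⟨(mem_comp.1 hZ').1, hF (mem_comp.1 hZ).1, hh.symm⟩
      refine comp_ind (fun A => A ∈ comp F' Y') hZ hZF' ?_
      intro A hA B hB hA' hAB
      refine mem_comp.2 ⟨hF (mem_comp.1 hB).1, ?_⟩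
      have a := (mem_comp.1 hA').2
      unfold lk at *
      exact a.tail ⟨hF (mem_comp.1 hA).1, hF (mem_comp.1 hB).1, hAB⟩
    by_cases h3 : Disjoint (atom (comp F Y) x) (atom (comp F' Y') x')
    · exact Or.inr (Or.inr h3)
    · rw [not_disjoint_iff] at h3
      obtain ⟨y, hy1, hy2⟩ := h3
      refine Or.inr (Or.inl ?_)
      rw [← atom_eq hy1, ← atom_eq hy2]
      intro z hz
      exact mem_atom.2 fun A hA => (mem_atom.1 hz) A (h2 A hA)
  · push Not at h1
    have hA : ∀ Z' ∈ comp F' Y', (∀ Z ∈ comp F Y, Z ⊆ Z') ∨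
        ∀ Z ∈ comp F Y, Z' ⊆ Z ∨ Disjoint Z Z' := fun Z' hZ' =>
      out_or fun Z hZ => (h1 Z hZ Z' hZ').2
    by_cases h2 : ∃ Z' ∈ comp F' Y', (∀ Z ∈ comp F Y, Z' ⊆ Z ∨ Disjoint Z Z') ∧
        ∃ y ∈ Z', ∃ Z ∈ comp F Y, y ∈ Z
    · -- all members of the second component are inside one atom of the first
      obtain ⟨Z0, hZ0, hb, y, hy, Z1, hZ1, hyZ1⟩ := h2
      have hsub : ∀ Z' : Finset V, (∀ Z ∈ comp F Y, Z' ⊆ Z ∨ Disjoint Z Z') → ∀ z ∈ Z',
          Z' ⊆ atom (comp F Y) z := by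
        intro Z' h3 z hz t ht
        refine mem_atom.2 fun Z hZ => ?_
        rcases h3 Z hZ with h4 | h4
        · exact ⟨fun _ => h4 ht, fun _ => h4 hz⟩
        · exact ⟨fun h5 => absurd hz (disjoint_left.1 h4 h5),
            fun h5 => absurd ht (disjoint_left.1 h4 h5)⟩
      have h3 : ∀ Z' ∈ comp F' Y', Z' ⊆ atom (comp F Y) y := by
        refine comp_ind (fun Z' => Z' ⊆ atom (comp F Y) y) hZ0 (hsub Z0 hb y hy) ?_
        intro A hA' B hB hAy hAB
        obtain ⟨⟨s, hs1, hs2⟩, ⟨t, ht1, ht2⟩, -⟩ := hAB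
        rcases hA B hB with h4 | h4
        · exact absurd (h4 Z1 hZ1 (atom_sub hZ1 hyZ1 (hAy ht1))) ht2
        · have h5 := hsub B h4 s hs2
          rwa [atom_eq (hAy hs1)] at h5
      obtain ⟨Z', hZ', hxZ'⟩ := hx'
      have h4 : atom (comp F' Y') x' ⊆ atom (comp F Y) y :=
        (atom_sub hZ' hxZ').trans (h3 Z' hZ')
      rcases atom_lam (comp F Y) x y with h5 | h5
      · exact Or.inr (Or.inl (h5 ▸ h4))
      · exact Or.inr (Or.inr (h5.mono_right h4))
    · -- the union of the first component is inside one atom of the second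
      push Not at h2
      obtain ⟨Z, hZ, hxZ⟩ := hx
      have h3 : Z ⊆ atom (comp F' Y') x := by
        intro y hy
        refine mem_atom.2 fun Z' hZ' => ?_
        rcases hA Z' hZ' with h4 | h4
        · exact ⟨fun _ => h4 Z hZ hy, fun _ => h4 Z hZ hxZ⟩
        · exact ⟨fun h5 => absurd hxZ (h2 Z' hZ' h4 x h5 Z hZ),
            fun h5 => absurd hy (h2 Z' hZ' h4 y h5 Z hZ)⟩
      have h4 := (atom_sub hZ hxZ).trans h3
      rcases atom_lam (comp F' Y') x x' with h5 | h5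
      · exact Or.inl (h5 ▸ h4)
      · exact Or.inr (Or.inr (h5.mono_left h4))

/-- The sets of `N` whose value is at most that of `Y`. -/
noncomputable def thr (N : Finset (Finset V)) (f : Finset V → ℕ) (Y : Finset V) :
    Finset (Finset V) := N.filter (fun Z => f Z ≤ f Y)

/-- MULTISCALE ATOMS. -/
theorem multi (v w : E → V) (r : V) (W : Finset E) (N : Finset (Finset V)) (p : ℕ)
    (hr : ∀ Y ∈ N, r ∉ Y) (hN : ∀ Y ∈ N, Y.Nonempty)
    (hA1 : ∀ Y ∈ N, ∃ c : V → ℕ, (univ.image c).card ≤ p ∧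
      (∀ x y, c x = c y → (x ∈ Y ↔ y ∈ Y)) ∧
      ∀ Z ∈ N, ∀ Z' ∈ N, (∀ x y, c x = c y → (x ∈ Z ↔ y ∈ Z)) → Crs Z Z' →
        ∀ x y, c x = c y → (x ∈ Z' ↔ y ∈ Z')) :
    ∃ LL : Finset (Finset V), (∀ A ∈ LL, A.Nonempty ∧ r ∉ A) ∧
      (∀ A ∈ LL, ∀ B ∈ LL, A ⊆ B ∨ B ⊆ A ∨ Disjoint A B) ∧
      ∀ Y ∈ N, ∃ P ⊆ LL, P.card ≤ p ∧ (∀ A ∈ P, ∀ B ∈ P, A ≠ B → Disjoint A B) ∧
        P.biUnion id = Y ∧ ∀ A ∈ P, (dl v w W A).card ≤ 2 ^ p * (dl v w W Y).card := by
  obtain ⟨f, hf⟩ : ∃ f : Finset V → ℕ, f = fun Z => (dl v w W Z).card := ⟨_, rfl⟩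
  obtain ⟨C, hC⟩ : ∃ C : Finset V → Finset (Finset V), C = fun Y => comp (thr N f Y) Y :=
    ⟨_, rfl⟩
  have hthr : ∀ Y ∈ N, Y ∈ thr N f Y := fun Y hY => mem_filter.2 ⟨hY, le_refl _⟩
  have hself : ∀ Y ∈ N, Y ∈ C Y := by
    intro Y hY
    rw [hC]
    exact self_mem_comp (hthr Y hY)
  have hCN : ∀ Y, ∀ Z ∈ C Y, Z ∈ N ∧ f Z ≤ f Y := by
    intro Y Z hZ
    rw [hC] at hZ
    exact mem_filter.1 (mem_comp.1 hZ).1
  refine ⟨N.biUnion (fun Y => ((C Y).biUnion id).image (atom (C Y))), ?_, ?_, ?_⟩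
  · intro A hA
    obtain ⟨Y, hY, hA⟩ := mem_biUnion.1 hA
    obtain ⟨x, hx, rfl⟩ := mem_image.1 hA
    obtain ⟨Z, hZ, hxZ⟩ := mem_biUnion.1 hx
    exact ⟨⟨x, self_mem_atom _ _⟩, fun h => hr Z (hCN Y Z hZ).1 (atom_sub hZ hxZ h)⟩
  · intro A hA B hB
    obtain ⟨Y, hY, hA⟩ := mem_biUnion.1 hA
    obtain ⟨x, hx, rfl⟩ := mem_image.1 hA
    obtain ⟨Z, hZ, hxZ⟩ := mem_biUnion.1 hx
    obtain ⟨Y', hY', hB⟩ := mem_biUnion.1 hB
    obtain ⟨x', hx', rfl⟩ := mem_image.1 hB
    obtain ⟨Z', hZ', hxZ'⟩ := mem_biUnion.1 hx'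
    rcases le_total (f Y) (f Y') with h | h
    · have hF : thr N f Y ⊆ thr N f Y' := fun Q hQ =>
        mem_filter.2 ⟨(mem_filter.1 hQ).1, (mem_filter.1 hQ).2.trans h⟩
      rw [hC] at hZ hZ' ⊢
      exact atoms_laminar hF ⟨Z, hZ, hxZ⟩ ⟨Z', hZ', hxZ'⟩
    · have hF : thr N f Y' ⊆ thr N f Y := fun Q hQ =>
        mem_filter.2 ⟨(mem_filter.1 hQ).1, (mem_filter.1 hQ).2.trans h⟩
      rw [hC] at hZ hZ' ⊢
      rcases atoms_laminar hF ⟨Z', hZ', hxZ'⟩ ⟨Z, hZ, hxZ⟩ with h1 | h1 | h1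
      · exact Or.inr (Or.inl h1)
      · exact Or.inl h1
      · exact Or.inr (Or.inr h1.symm)
  · intro Y hY
    obtain ⟨c, hc1, hc2, hc3⟩ := hA1 Y hY
    -- all members of the component are unions of classes
    have hcl : ∀ Z ∈ C Y, ∀ x y, c x = c y → (x ∈ Z ↔ y ∈ Z) := by
      have h0 := hself Y hY
      have hN' := hCN Y
      rw [hC] at h0 hN' ⊢
      refine comp_ind (fun Z => ∀ x y, c x = c y → (x ∈ Z ↔ y ∈ Z)) h0 hc2 ?_
      intro A hA B hB hPA hAB
      exact hc3 A (hN' A hA).1 B (hN' B hB).1 hPA hAB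
    have hat : ∀ x y, c x = c y → atom (C Y) x = atom (C Y) y := by
      intro x y hxy
      exact (atom_eq (mem_atom.2 fun Z hZ => hcl Z hZ x y hxy)).symm
    have hcardC : (C Y).card ≤ 2 ^ p := by
      have h1 : ((C Y).image (fun Z => Z.image c)).card = (C Y).card := by
        refine card_image_of_injOn fun Z hZ Z' hZ' hh => ?_
        have hh' : Z.image c = Z'.image c := hh
        ext x
        constructor
        · intro hx
          have : c x ∈ Z'.image c := hh' ▸ mem_image_of_mem c hx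
          obtain ⟨y, hy, hyx⟩ := mem_image.1 this
          exact (hcl Z' hZ' y x hyx).1 hy
        · intro hx
          have : c x ∈ Z.image c := hh' ▸ mem_image_of_mem c hx
          obtain ⟨y, hy, hyx⟩ := mem_image.1 this
          exact (hcl Z hZ y x hyx).1 hy
      have h2 : (C Y).image (fun Z => Z.image c) ⊆ (univ.image c).powerset := by
        intro X hX
        obtain ⟨Z, -, rfl⟩ := mem_image.1 hX
        exact mem_powerset.2 (image_subset_image (subset_univ _))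
      have h3 := card_le_card h2
      rw [h1, card_powerset] at h3
      exact h3.trans (Nat.pow_le_pow_right (by norm_num) hc1)
    refine ⟨Y.image (atom (C Y)), ?_, ?_, ?_, ?_, ?_⟩
    · intro A hA
      obtain ⟨x, hx, rfl⟩ := mem_image.1 hA
      exact mem_biUnion.2 ⟨Y, hY, mem_image.2 ⟨x, mem_biUnion.2 ⟨Y, hself Y hY, hx⟩, rfl⟩⟩
    · -- few atoms
      have h1 : (Y.image (atom (C Y))).card ≤ (Y.image c).card := by
        refine card_le_card_of_surjOn (fun i => if h : ∃ x, c x = i then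
          atom (C Y) (Classical.choose h) else ∅) ?_
        intro A hA
        obtain ⟨x, hx, rfl⟩ := mem_image.1 hA
        refine ⟨c x, mem_image_of_mem c hx, ?_⟩
        have h : ∃ y, c y = c x := ⟨x, rfl⟩
        show (if h : ∃ y, c y = c x then atom (C Y) (Classical.choose h) else ∅) = _
        rw [dif_pos h]
        exact hat _ _ (Classical.choose_spec h)
      exact h1.trans ((card_le_card (image_subset_image (subset_univ _))).trans hc1)
    · intro A hA B hB hAB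
      obtain ⟨x, hx, rfl⟩ := mem_image.1 hA
      obtain ⟨y, hy, rfl⟩ := mem_image.1 hB
      rcases atom_lam (C Y) x y with h | h
      · exact absurd h hAB
      · exact h
    · ext x
      rw [mem_biUnion]
      constructor
      · rintro ⟨A, hA, hx⟩
        obtain ⟨y, hy, rfl⟩ := mem_image.1 hA
        exact atom_sub (hself Y hY) hy hx
      · intro hx
        exact ⟨atom (C Y) x, mem_image_of_mem _ hx, self_mem_atom _ _⟩
    · intro A hA
      obtain ⟨x, hx, rfl⟩ := mem_image.1 hA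
      have h1 := dl_atom_le v w W (C Y) x
      have h2 : ∑ Z ∈ C Y, (dl v w W Z).card ≤ ∑ Z ∈ C Y, (dl v w W Y).card := by
        refine sum_le_sum fun Z hZ => ?_
        have := (hCN Y Z hZ).2
        rw [hf] at this
        exact this
      rw [sum_const, smul_eq_mul] at h2
      exact h1.trans (h2.trans (Nat.mul_le_mul_right _ hcardC))

end Pool.Agent.Lib.MP_21a058_co.Lim
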