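import Mathlib

/-! MP_21a058_co, the limit form: the choice of the constants. -/

namespace Pool.Agent.Lib.MP_21a058_co.Lim

/-- All side conditions on the constants. `p` bounds the number of atoms, `mo` the number of
colours, `A0 = p 2 ^ p`; the unit is `H ≥ H0`, the graph has all cuts at least `2 M H`, blocks
have `B1 H` edges, `M = B1 ^ 2`; the start costs `E H` trees, `X H` trees are released in a
round, `Th H` trees are given up for strong pieces and the error of a round is `Th H`; small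
blocks and cuts have at most `c` fractional edges. -/
structure Nums (n p mo A0 B1 M E X Th C9 c H0 : ℕ) : Prop where
  hn : 1 ≤ n
  hp : p = 4 * n
  hmo : mo = 2 ^ p + 1
  hA0 : A0 = p * 2 ^ p
  hB1 : 1 ≤ B1
  hM : M = B1 * B1
  hE : n * E = M
  hX : 2 ≤ X
  hXM : 16 * (n * n) * X = M
  hTh : 1 ≤ Th
  hd : 3 * n * (Th + 1) ≤ X
  hnear : 2 * M + p * (p + 1) * (X + 1) < p * E
  heps : 2 * M * (A0 * (4 * B1 + 1)) ≤ Th * Th
  hC9 : C9 = 2 * mo * M
  hc : c = 64 + 16 * C9
  hH0 : H0 = 48 * mo + 4 * c + 4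

theorem exists_nums (n : ℕ) (hn : 1 ≤ n) :
    ∃ p mo A0 B1 M E X Th C9 c H0 : ℕ, Nums n p mo A0 B1 M E X Th C9 c H0 := by
  obtain ⟨p, hp⟩ : ∃ p, p = 4 * n := ⟨_, rfl⟩
  obtain ⟨A0, hA0⟩ : ∃ A0, A0 = p * 2 ^ p := ⟨_, rfl⟩
  have hA1 : 1 ≤ A0 := by
    rw [hA0]
    exact Nat.mul_pos (by omega) (Nat.pos_of_ne_zero (by positivity))
  obtain ⟨y, hy⟩ : ∃ y, y = 960 * (n * n * n) * A0 := ⟨_, rfl⟩
  have hn3 : 1 ≤ n * n * n := Nat.mul_pos (Nat.mul_pos hn hn) hn
  have hy1 : 1 ≤ y := by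
    rw [hy]
    exact Nat.mul_pos (by omega) hA1
  have hy3 : 1 ≤ y * y * y := Nat.mul_pos (Nat.mul_pos hy1 hy1) hy1
  refine ⟨p, 2 ^ p + 1, A0, y * y, y * y * (y * y), 960 * (n * n) * A0 * (y * y * y),
    60 * n * A0 * (y * y * y), 10 * A0 * (y * y * y), 2 * (2 ^ p + 1) * (y * y * (y * y)),
    64 + 16 * (2 * (2 ^ p + 1) * (y * y * (y * y))),
    48 * (2 ^ p + 1) + 4 * (64 + 16 * (2 * (2 ^ p + 1) * (y * y * (y * y)))) + 4, ?_⟩
  have hY : y * y * (y * y) = 960 * (n * n * n) * A0 * (y * y * y) := by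
    have : y * y * (y * y) = y * (y * y * y) := by ring
    rw [this]
    exact congrArg (· * (y * y * y)) hy
  have hnA : 1 ≤ n * A0 * (y * y * y) := Nat.mul_pos (Nat.mul_pos hn hA1) hy3
  refine ⟨hn, hp, rfl, hA0, Nat.mul_pos hy1 hy1, rfl, ?_, ?_, ?_, ?_, ?_, ?_, ?_, rfl, rfl, rfl⟩
  · rw [hY]
    ring
  · have : 60 * n * A0 * (y * y * y) = 60 * (n * A0 * (y * y * y)) := by ring
    omega
  · rw [hY]
    ring
  · have : 10 * A0 * (y * y * y) = 10 * (A0 * (y * y * y)) := by ring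
    have h2 : 1 ≤ A0 * (y * y * y) := Nat.mul_pos hA1 hy3
    omega
  · have e1 : 3 * n * (10 * A0 * (y * y * y) + 1) = 30 * (n * A0 * (y * y * y)) + 3 * n := by
      ring
    have e2 : 60 * n * A0 * (y * y * y) = 60 * (n * A0 * (y * y * y)) := by ring
    have e3 : n ≤ n * A0 * (y * y * y) := by
      have : n * A0 * (y * y * y) = n * (A0 * (y * y * y)) := by ring
      rw [this]
      exact Nat.le_mul_of_pos_right _ (Nat.mul_pos hA1 hy3)
    omega
  · rw [hY, hp]
    have e1 : 4 * n * (960 * (n * n) * A0 * (y * y * y)) =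
        3840 * (n * n * n * A0 * (y * y * y)) := by ring
    have e2 : 2 * (960 * (n * n * n) * A0 * (y * y * y)) =
        1920 * (n * n * n * A0 * (y * y * y)) := by ring
    have e3 : 4 * n * (4 * n + 1) * (60 * n * A0 * (y * y * y) + 1) =
        960 * (n * n * n * A0 * (y * y * y)) + 240 * (n * n * A0 * (y * y * y)) +
          16 * (n * n) + 4 * n := by ring
    have e4 : n * n * A0 * (y * y * y) ≤ n * n * n * A0 * (y * y * y) := by
      refine Nat.mul_le_mul_right _ (Nat.mul_le_mul_right _ ?_)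
      exact Nat.le_mul_of_pos_right _ hn
    have e5 : n * n ≤ n * n * n * A0 * (y * y * y) := by
      have : n * n * n * A0 * (y * y * y) = n * n * (n * A0 * (y * y * y)) := by ring
      rw [this]
      exact Nat.le_mul_of_pos_right _ hnA
    have e6 : n ≤ n * n := Nat.le_mul_of_pos_right _ hn
    rw [e1, e2, e3]
    omega
  · have e1 : 2 * (y * y * (y * y)) * (A0 * (4 * (y * y) + 1)) =
        8 * (A0 * (y * y * y * (y * y * y))) + 2 * (A0 * (y * y * (y * y))) := by ring
    have e2 : 10 * A0 * (y * y * y) * (10 * A0 * (y * y * y)) =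
        100 * (A0 * (A0 * (y * y * y * (y * y * y)))) := by ring
    have e3 : A0 * (y * y * (y * y)) ≤ A0 * (y * y * y * (y * y * y)) := by
      refine Nat.mul_le_mul_left _ ?_
      have : y * y * y * (y * y * y) = y * y * (y * y) * (y * y) := by ring
      rw [this]
      exact Nat.le_mul_of_pos_right _ (Nat.mul_pos hy1 hy1)
    have e4 : A0 * (y * y * y * (y * y * y)) ≤ A0 * (A0 * (y * y * y * (y * y * y))) :=
      Nat.le_mul_of_pos_left _ hA1
    rw [e1, e2]
    omega

end Pool.Agent.Lib.MP_21a058_co.Lim
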