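import Pool.Agent.Lib.MP_21a058_co.Duo.RegT
import Pool.Agent.Lib.MP_21a058_co.Thin.Lam
import Pool.Agent.Lib.MP_21a058_co.Thin.Str
import Pool.Agent.Lib.MP_21a058_co.Thin.Bnd

/-! MP_21a058_co: the laminar family of the strong pieces of `w` disjoint spanning trees, and `t`
disjoint spanning trees which are connected on every piece. -/

set_option autoImplicit false
set_option linter.unusedSectionVars false

namespace Pool.Agent.Lib.MP_21a058_co.Lim

open Finset MP21a058
open Pool.Agent.Lib.MP_21a058_co.P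
open Pool.Agent.Lib.MP_21a058_co.Every
open Pool.Agent.Lib.MP_21a058_co.Duo
open Pool.Agent.Lib.MP_21a058_co.Thin (Fam)

variable {V E : Type} [Fintype V] [DecidableEq V] [Fintype E] [DecidableEq E]

/-- connected on the whole set, in the other cut form -/
theorem thin_conn (a b : E → V) {T : Finset E} (h : P.ConnOn a b T univ) :
    Thin.ConnOn a b T univ := by
  rintro S ⟨x, -, hx⟩ ⟨y, -, hy⟩
  obtain ⟨e, he, -, h1⟩ := h S (subset_univ S) ⟨x, hx⟩ (fun h2 => hy (h2 ▸ mem_univ y))
  exact ⟨e, he, mem_univ _, mem_univ _, (mem_cut a b).1 h1⟩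

/-- from the cut form with a free set to the cut form inside `Y` -/
theorem conn_thin (a b : E → V) {A : Finset E} {Y : Finset V} (h : Thin.ConnOn a b A Y) :
    P.ConnOn a b (A ∩ ins a b Y) Y := by
  intro Z hZ hZn hZY
  obtain ⟨x, hx⟩ := hZn
  obtain ⟨y, hyY, hyZ⟩ : ∃ y ∈ Y, y ∉ Z := by
    by_contra hcon
    push Not at hcon
    exact hZY (Subset.antisymm hZ hcon)
  obtain ⟨e, he, h1, h2, h3⟩ := h Z ⟨x, hZ hx, hx⟩ ⟨y, hyY, hyZ⟩
  have h4 : e ∈ ins a b Y := (mem_ins a b).2 ⟨h1, h2⟩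
  exact ⟨e, mem_inter.2 ⟨he, h4⟩, h4, (mem_cut a b).2 h3⟩

/-- **a base of the region rank is connected on every member of the family** -/
theorem base_conn_mem (L : Fam V) (a b : E → V) {A H : Finset E} (hAH : A ⊆ H)
    (h : L.R a b A = L.R a b H) (hH : ∀ Y ∈ L.F, Thin.ConnOn a b H Y) {Y0 : Finset V}
    (hY0 : Y0 ∈ L.F) : Thin.ConnOn a b A Y0 := by
  classical
  intro S hin hout
  by_contra hcon
  push Not at hcon
  have hne : (L.F.filter (fun Y => Y ⊆ Y0 ∧ (∃ x ∈ Y, x ∈ S) ∧ ∃ x ∈ Y, x ∉ S)).Nonempty :=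
    ⟨Y0, mem_filter.2 ⟨hY0, Subset.rfl, hin, hout⟩⟩
  obtain ⟨Y, hY, hmin⟩ := exists_min_image _ card hne
  rw [mem_filter] at hY
  obtain ⟨hYF, hYY, hYin, hYout⟩ := hY
  have hg : (fun x => if x ∈ S ∧ x ∈ Y then (1 : ℚ) else 0) ∈ L.K a b Y A := by
    refine ⟨fun x hx => if_neg fun hh => hx hh.2, fun Z hZ hZY x hx y hy => ?_,
      fun e he hv hw => ?_⟩
    · have hns : ¬ ((∃ x ∈ Z, x ∈ S) ∧ ∃ x ∈ Z, x ∉ S) := by
        intro hh
        have h1 := hmin Z (mem_filter.2 ⟨hZ, hZY.1.trans hYY, hh⟩)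
        have h2 := card_lt_card hZY
        omega
      have h3 : x ∈ S ↔ y ∈ S := by
        constructor
        · intro hxS
          by_contra hyS
          exact hns ⟨⟨x, hx, hxS⟩, y, hy, hyS⟩
        · intro hyS
          by_contra hxS
          exact hns ⟨⟨y, hy, hyS⟩, x, hx, hxS⟩
      have hxY : x ∈ Y := hZY.1 hx
      have hyY : y ∈ Y := hZY.1 hy
      simp only [hxY, hyY, and_true, h3]
    · have h1 := hcon e he (hYY hv) (hYY hw)
      simp only [hv, hw, and_true, h1]
  rw [L.K_eq a b Y hAH (L.base_rk a b hAH h hYF)] at hg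
  obtain ⟨e, he, hev, hew, hes⟩ := hH Y hYF S hYin hYout
  have h1 := hg.2.2 e he hev hew
  simp only [hev, hew, and_true] at h1
  apply hes
  constructor
  · intro hv
    by_contra hw
    rw [if_pos hv, if_neg hw] at h1
    exact one_ne_zero h1
  · intro hw
    by_contra hv
    rw [if_neg hv, if_pos hw] at h1
    exact zero_ne_one h1

/-- a base of the region rank with as many edges as its rank is a tree, connected on every
member of the family -/
theorem treeL_of_base (L : Fam V) (a b : E → V) {A H : Finset E} (hAH : A ⊆ H)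
    (h : L.R a b A = L.R a b H) (hc : A.card = L.R a b H)
    (hH : ∀ Y ∈ L.F, Thin.ConnOn a b H Y) : TreeL L a b A := by
  have hA : ∀ Y ∈ L.F, P.ConnOn a b (A ∩ ins a b Y) Y := fun Y hY =>
    conn_thin a b (base_conn_mem L a b hAH h hH hY)
  have hlow : ∀ Y ∈ L.F, Y.card ≤ (A ∩ ins a b Y).card + 1 := by
    intro Y hY
    have h1 := card_le_of_conn a b (hA Y hY)
    have h2 := rk_le_card a b (A ∩ ins a b Y)
    omega
  have hins : A ∩ ins a b univ = A := by
    apply inter_eq_left.2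
    intro e _
    exact (mem_ins a b).2 ⟨mem_univ _, mem_univ _⟩
  have hT : Tree a b A := by
    constructor
    · have h1 := hA univ L.top
      rwa [hins] at h1
    · have h1 := hlow univ L.top
      rw [hins, card_univ] at h1
      have h2 := R_ends L a b (S := A) (U := univ) (L.ne univ L.top)
        fun e _ => ⟨mem_univ _, mem_univ _⟩
      rw [card_univ] at h2
      omega
  refine ⟨hT, fun Y hY => ?_⟩
  have h1 := hlow Y hY
  have h2 := hT.ins_le a b (L.ne Y hY)
  omega

/-- membership in a filtered set, with any test -/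
theorem mem_filter_any {E : Type} (p : E → Prop) (d : DecidablePred p) (s : Finset E) (e : E) :
    e ∈ @Finset.filter E p d s ↔ e ∈ s ∧ p e := mem_filter

/-- twice the difference, with any equality tests -/
theorem sdiff_any {E : Type} (d1 d2 : DecidableEq E) {H J : Finset E} (hJ : J ⊆ H) :
    @SDiff.sdiff (Finset E) (@Finset.instSDiff E d1) H
      (@SDiff.sdiff (Finset E) (@Finset.instSDiff E d2) H J) = J := by
  have h := Subsingleton.elim d1 d2
  subst h
  exact Finset.sdiff_sdiff_eq_self hJ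

/-- the packing condition for the region rank -/
theorem strength_any (L : Fam V) (a b : E → V) {H : Finset E} {t : ℕ}
    (hs : ∀ Y ∈ L.F, Thin.Strong a b H t Y) (J : Finset E) (hJ : J ⊆ H) :
    t * L.R a b H ≤ t * L.R a b J + (H \ J).card := by
  have h4 := L.strength a b hs (H \ J) sdiff_subset
  have h5 := sdiff_any (Classical.decEq E) (inferInstance : DecidableEq E) hJ
  have h6 : ∀ D : Finset E, D = J → t * L.R a b H ≤ t * L.R a b D + (H \ J).card →
      t * L.R a b H ≤ t * L.R a b J + (H \ J).card := by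
    intro D hD h
    rw [hD] at h
    exact h
  exact h6 _ h5 h4

/-- `t` disjoint trees, connected on every member, from a family of `t`-strong sets -/
theorem exists_treeL (L : Fam V) (a b : E → V) {H : Finset E} {t : ℕ} (ht : 0 < t)
    (hs : ∀ Y ∈ L.F, Thin.Strong a b H t Y) :
    ∃ B : Fin t → Finset E, Trees a b B ∧ (∀ i, B i ⊆ H) ∧ ∀ i, TreeL L a b (B i) := by
  have hconn : ∀ Y ∈ L.F, Thin.ConnOn a b H Y := fun Y hY => Thin.strong_conn a b ht (hs Y hY)
  obtain ⟨B, h1, h2, h3⟩ := pack_rk (t := t) (R_Rk L a b) H (L.R a b H)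
    (fun J hJ => (R_Rk L a b).mono J H hJ) (strength_any L a b hs)
  have hB : ∀ i, TreeL L a b (B i) := fun i =>
    treeL_of_base L a b (h1 i) (h3 i).2 (h3 i).1 hconn
  exact ⟨B, ⟨fun i => (hB i).1, h2⟩, h1, hB⟩

/-- `w` disjoint trees make the whole set `t`-strong, `t ≤ w` -/
theorem strong_univ (a b : E → V) (hV : Nonempty V) {w t : ℕ} (htw : t ≤ w)
    (T : Fin w → Finset E) (hT : Trees a b T) : Thin.Strong a b (un T) t univ := by
  intro p
  have h1 := Thin.bnd_cross_mul a b (H := un T) T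
    (fun i e he => mem_un.2 ⟨i, he⟩) hT.2 (fun i => thin_conn a b (hT.1 i).1) p
  obtain ⟨x⟩ := hV
  have h2 : ∀ d1 : DecidableEq V, 0 < (@Finset.image V V d1 p univ).card := by
    intro d1
    exact card_pos.2 ⟨p x, mem_image_of_mem p (mem_univ x)⟩
  have h3 := h2 (Classical.decEq V)
  have key : ∀ n c : ℕ, 0 < n → w * n ≤ c + w → t * n ≤ c + t := by
    intro n c hn h
    obtain ⟨d, rfl⟩ : ∃ d, w = t + d := ⟨w - t, by omega⟩
    have h5 : d ≤ d * n := Nat.le_mul_of_pos_right d hn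
    rw [Nat.add_mul] at h
    omega
  have h6 : ∀ d1 d2 : DecidableEq V, (@Finset.image V V d1 p univ).card =
      (@Finset.image V V d2 p univ).card := fun d1 d2 => by
    rw [Subsingleton.elim d1 d2]
  exact key _ _ (h2 _) (le_trans (le_of_eq (congrArg (fun x => w * x) (h6 _ _))) h1)

/-- **the pieces**: a laminar family of `t`-strong pieces of the members of `S`, and `t` disjoint
spanning trees inside the `w` given ones which are connected on every piece; the cut of a member
with `q` pieces has at least `(w - t) q + t` edges of the given trees -/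
theorem pieces_fam (a b : E → V) (hV : Nonempty V) {w t : ℕ} (ht : 0 < t) (htw : t ≤ w)
    (T : Fin w → Finset E) (hT : Trees a b T)
    (S : Finset (Finset V)) (hS : ∀ X ∈ S, ∀ Y ∈ S, X ⊆ Y ∨ Y ⊆ X ∨ Disjoint X Y)
    (hne : ∀ X ∈ S, X.Nonempty) (hnu : ∀ X ∈ S, X ≠ univ) :
    ∃ (L : Fam V) (B : Fin t → Finset E), Trees a b B ∧ un B ⊆ un T ∧
      (∀ i, TreeL L a b (B i)) ∧ ∀ Y ∈ S, ∃ Q : Finset (Finset V),
        (∀ P ∈ Q, P ∈ L.F ∧ P ≠ univ ∧ P.Nonempty ∧ P ⊆ Y) ∧
        (∀ P ∈ Q, ∀ P' ∈ Q, P ≠ P' → Disjoint P P') ∧ (∀ x ∈ Y, ∃ P ∈ Q, x ∈ P) ∧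
        (w - t) * Q.card + t ≤ (un T ∩ cut a b Y).card := by
  obtain ⟨L, hL, hQ⟩ := Thin.exists_fam a b (un T) t hV (strong_univ a b hV htw T hT) S hS hne hnu
  obtain ⟨B, hB, hBH, hBL⟩ := exists_treeL L a b ht hL
  refine ⟨L, B, hB, ?_, hBL, fun Y hY => ?_⟩
  · intro e he
    obtain ⟨i, hi⟩ := mem_un.1 he
    exact hBH i hi
  · obtain ⟨Q, h1, h2, h3, h4⟩ := hQ Y hY
    refine ⟨Q, h1, h2, h3, ?_⟩
    have h5 := Thin.bnd_many a b (H := un T) T (fun i e he => mem_un.2 ⟨i, he⟩) hT.2
      (fun i => thin_conn a b (hT.1 i).1) (hnu Y hY) Q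
      (fun P hP => ⟨(h1 P hP).2.2.1, (h1 P hP).2.2.2⟩) h2 h3
    have h6 : Thin.dl a b (un T) Y = un T ∩ cut a b Y := by
      ext e
      rw [mem_inter, mem_cut]
      exact mem_filter_any _ _ _ _
    rw [h6] at h5
    obtain ⟨d, hd⟩ : ∃ d, w = t + d := ⟨w - t, by omega⟩
    have h7 : w - t = d := by omega
    have h8 : w * Q.card = t * Q.card + d * Q.card := by
      rw [hd, Nat.add_mul]
    rw [h7]
    rw [h8] at h5
    omega

end Pool.Agent.Lib.MP_21a058_co.Lim
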