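import Pool.Agent.Lib.MP_21a058_co.Swap.Num
import Pool.Agent.Lib.MP_21a058_co.Swap.Sel
import Pool.Agent.Lib.MP_21a058_co.Z.Gen

/-! MP_21a058_co, the limit form: numbers, and the step to tuples. -/

set_option linter.unusedSectionVars false
set_option linter.unusedVariables false

namespace Pool.Agent.Lib.MP_21a058_co.Lim

open Finset
open scoped Classical
open Pool.Agent.Lib.MP_21a058_co.P
open Pool.Agent.Lib.MP_21a058_co.Swap

/-- `arrow_core` for a selection `g` of parts which go into the rest. -/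
theorem arrow_core_on {t u s l : ℕ} (h : Core t u s l) {r m : ℕ} (ks : Fin r → ℕ)
    (g : Fin m → Fin r) (hg : Function.Injective g) {k' : ℕ}
    (hs : ∑ i ∈ univ \ univ.image g, ks i ≤ s) (hl : k' ≤ l)
    (hA : Pool.Agent.Lib.MP_21a058_co.Arrow k' (fun x => ks (g x))) :
    Pool.Agent.Lib.MP_21a058_co.Arrow (2 * (t + u)) ks := by
  refine Thin.arrow_of_rest ks g hg ?_ hA
  intro V E _ _ v w hV hcut
  obtain ⟨A, h1, h2, h3⟩ := h V E v w hV (by
    intro Y hY hYu
    refine (hcut Y hY hYu).trans (card_le_card ?_)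
    intro e he
    exact (mem_cut v w).2 (Thin.mem_dl'.1 he).2)
  refine ⟨fun i => A (Fin.castLE hs i), ?_, ?_, ?_⟩
  · intro i j hij
    refine h1 _ _ fun hh => hij ?_
    exact Fin.castLE_injective hs hh
  · intro i
    exact sel_conn v w (h2 _)
  · intro X hX hXu
    refine hl.trans ((h3 X hX hXu).trans (card_le_card ?_))
    intro e he
    obtain ⟨he1, he2⟩ := mem_sdiff.1 he
    refine Thin.mem_rest.2 ⟨fun i hi => he2 ?_, (mem_cut v w).1 he1⟩
    exact mem_biUnion.2 ⟨_, mem_univ _, hi⟩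

/-- The numbers for which the iterated theorem is proved: the unit is `H`, the graph has all
cuts at least `2 M H`; `j` rounds, a round costs `(X + d) H` trees of the pool and raises the
bound for the cuts of the rest by at least `(2 X - d) H`; the start costs `E H` trees. -/
def LimAll (M H0 E X d : ℕ) : Prop := ∀ H j s l : ℕ, H0 ≤ H →
  s + (E + j * (X + d)) * H ≤ M * H → l + j * d * H ≤ (E + 2 * j * X) * H → Core (M * H) 0 s l

theorem core_of_lim {M H0 E X d n : ℕ} (hL : LimAll M H0 E X d) (hn : 1 ≤ n) (hX : 1 ≤ X)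
    (h1 : n * E ≤ M) (h2 : n * X ≤ M) (h3 : 3 * n * d ≤ X) {H : ℕ} (hH : H0 ≤ H) (hH1 : 1 ≤ H)
    {s l : ℕ} (h : n * (2 * s + l) + 6 * (M * H) ≤ 2 * n * (M * H)) : Core (M * H) 0 s l := by
  have hy0 : 0 < (X + d) * H := Nat.mul_pos (by omega) hH1
  obtain ⟨j, hj⟩ : ∃ j, j = (M * H - E * H - s) / ((X + d) * H) := ⟨_, rfl⟩
  have e1 : n * (E * H) ≤ M * H := by
    rw [← Nat.mul_assoc]
    exact Nat.mul_le_mul_right _ h1
  have e2 : n * (X * H) ≤ M * H := by
    rw [← Nat.mul_assoc]
    exact Nat.mul_le_mul_right _ h2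
  have e3 : 3 * n * (d * H) ≤ X * H := by
    rw [← Nat.mul_assoc]
    exact Nat.mul_le_mul_right _ h3
  -- the start
  have e4 : s + E * H ≤ M * H := by
    have e5 : n * (s + E * H) ≤ n * (M * H) := by
      have : n * (2 * s + l) = 2 * (n * s) + n * l := by ring
      have : 2 * n * (M * H) = 2 * (n * (M * H)) := by ring
      have : n * (s + E * H) = n * s + n * (E * H) := by ring
      omega
    exact Nat.le_of_mul_le_mul_left e5 (by omega)
  have hj1 : j * ((X + d) * H) ≤ M * H - E * H - s := by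
    rw [hj]
    exact Nat.div_mul_le_self _ _
  have hj2 : M * H - E * H - s < (j + 1) * ((X + d) * H) := by
    have h4 := Nat.lt_mul_div_succ (M * H - E * H - s) hy0
    rw [← hj] at h4
    exact lt_of_lt_of_eq h4 (Nat.mul_comm _ _)
  have e6 : j * ((X + d) * H) = j * (X * H) + j * (d * H) := by ring
  have e7 : (j + 1) * ((X + d) * H) = j * (X * H) + j * (d * H) + (X * H + d * H) := by ring
  have e8 : 3 * n * (j * (d * H)) ≤ j * (X * H) := by
    have : 3 * n * (j * (d * H)) = j * (3 * n * (d * H)) := by ring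
    rw [this]
    exact Nat.mul_le_mul_left _ e3
  have e9 : n * (d * H) ≤ M * H := by
    have : 3 * n * (d * H) = 3 * (n * (d * H)) := by ring
    have : n * (X * H) ≥ X * H := Nat.le_mul_of_pos_left _ (by omega)
    omega
  refine hL H j s l hH ?_ ?_
  · have : (E + j * (X + d)) * H = E * H + j * ((X + d) * H) := by ring
    rw [this]
    omega
  · have e10 : l + j * d * H = l + j * (d * H) := by ring
    have e11 : (E + 2 * j * X) * H = E * H + 2 * (j * (X * H)) := by ring
    rw [e10, e11]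
    refine Nat.le_of_mul_le_mul_left (c := n) ?_ (by omega)
    have f1 : n * (l + j * (d * H)) = n * l + n * (j * (d * H)) := by ring
    have f2 : n * (E * H + 2 * (j * (X * H))) = n * (E * H) + 2 * (n * (j * (X * H))) := by ring
    have f3 : n * (2 * s + l) = 2 * (n * s) + n * l := by ring
    have f4 : 2 * n * (M * H) = 2 * (n * (M * H)) := by ring
    have f5 : 3 * n * (j * (d * H)) = 3 * (n * (j * (d * H))) := by ring
    have f6 : M * H ≤ E * H + s + (j * (X * H) + j * (d * H) + (X * H + d * H)) := by omega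
    have f7 : n * (M * H) ≤ n * (E * H) + n * s + (n * (j * (X * H)) + n * (j * (d * H)) +
        (n * (X * H) + n * (d * H))) := by
      refine (Nat.mul_le_mul_left n f6).trans (le_of_eq ?_)
      ring
    have f8 : j * (X * H) ≤ M * H := by omega
    -- `n y ≤ 2 m` in the sharper form `n X H + n d H ≤ 2 m`
    omega

/-- **The closed form.** -/
theorem arrow_lim_of (hc : ∀ n : ℕ, 1 ≤ n → ∃ M H0 E X d : ℕ, 1 ≤ M ∧ 1 ≤ H0 ∧ 1 ≤ X ∧
      n * E ≤ M ∧ n * X ≤ M ∧ 3 * n * d ≤ X ∧ LimAll M H0 E X d) (q : ℕ) (hq : 1 ≤ q) :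
    ∃ C : ℕ, ∀ (r : ℕ) (ks : Fin r → ℕ) (m : ℕ) (g : Fin m → Fin r), Function.Injective g →
      ∀ k k' : ℕ, Pool.Agent.Lib.MP_21a058_co.Arrow k' (fun x => ks (g x)) →
      (q + 1) * (2 * (∑ i ∈ univ \ univ.image g, ks i) + k') + C ≤ q * k →
      Pool.Agent.Lib.MP_21a058_co.Arrow k ks := by
  obtain ⟨M, H0, E, X, d, hM, hH0, hX, h1, h2, h3, hL⟩ := hc (3 * (q + 1)) (by omega)
  refine ⟨q * (2 * (M * H0) + 2 * M + 2), fun r ks m g hg k k' hA h => ?_⟩
  obtain ⟨s, hs⟩ : ∃ s, s = ∑ i ∈ univ \ univ.image g, ks i := ⟨_, rfl⟩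
  rw [← hs] at h
  obtain ⟨H, hH⟩ : ∃ H, H = k / 2 / M := ⟨_, rfl⟩
  have a1 : M * H ≤ k / 2 := by
    rw [hH]
    exact Nat.mul_div_le _ _
  have a2 : k / 2 < M * (H + 1) := by
    have := Nat.lt_mul_div_succ (k / 2) (show 0 < M by omega)
    rw [← hH] at this
    exact this
  have a3 : 2 * (M * H0) + 2 * M + 2 ≤ k := by
    have : q * (2 * (M * H0) + 2 * M + 2) ≤ q * k := by omega
    exact Nat.le_of_mul_le_mul_left this (by omega)
  have a4 : H0 ≤ H := by
    by_contra hh
    push Not at hh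
    have : M * (H + 1) ≤ M * H0 := Nat.mul_le_mul_left _ hh
    omega
  have a5 : M * (H + 1) = M * H + M := by ring
  have hcore : Core (M * H) 0 s k' := by
    refine core_of_lim hL (by omega) hX h1 h2 h3 a4 (by omega) ?_
    have b1 : q * k ≤ q * (2 * (M * H) + 2 * M) := Nat.mul_le_mul_left _ (by omega)
    have b2 : q * (2 * (M * H) + 2 * M) = 2 * (q * (M * H)) + q * (2 * M) := by ring
    have b3 : q * (2 * (M * H0) + 2 * M + 2) = q * (2 * (M * H0) + 2) + q * (2 * M) := by ring
    have b4 : (q + 1) * (2 * s + k') ≤ 2 * (q * (M * H)) := by omega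
    have b5 : 3 * (q + 1) * (2 * s + k') = 3 * ((q + 1) * (2 * s + k')) := by ring
    have b6 : 2 * (3 * (q + 1)) * (M * H) = 6 * (q * (M * H)) + 6 * (M * H) := by ring
    rw [b5, b6]
    omega
  have h4 := arrow_core_on (t := M * H) (u := 0) (s := s) (l := k') hcore ks g hg (le_of_eq hs.symm)
    le_rfl hA
  exact arrow_mono (show 2 * (M * H + 0) ≤ k by omega) h4

end Pool.Agent.Lib.MP_21a058_co.Lim
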