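import Mathlib.Tactic.Ring
import Mathlib.Tactic.Linarith

/-! The numeric side condition of the closed partitions (MP_21a058_co). -/

namespace Pool.Agent.Lib.MP_21a058_co.Lim

/-- the hypothesis of the closed partitions, from the invariants of the iteration -/
theorem atoms_num {lam τ u p M E X H : ℕ} (hH : 0 < H) (h1 : lam + E * H ≤ 2 * τ)
    (h2 : τ ≤ M * H) (hu : u = (X + 1) * H)
    (hp : p * (p + 1) * (X + 1) + 2 * M < (p + 1) * E) :
    (p + 1) * (lam + p * u) < 2 * τ * p := by
  subst hu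
  have h3 : (p * (p + 1) * (X + 1) + 2 * M) * H < (p + 1) * E * H :=
    Nat.mul_lt_mul_of_pos_right hp hH
  have h4 : (p + 1) * (lam + E * H) ≤ (p + 1) * (2 * τ) := Nat.mul_le_mul_left _ h1
  have e1 : (p + 1) * (lam + p * ((X + 1) * H)) = (p + 1) * lam + p * (p + 1) * (X + 1) * H := by
    ring
  have e2 : (p * (p + 1) * (X + 1) + 2 * M) * H = p * (p + 1) * (X + 1) * H + 2 * (M * H) := by
    ring
  have e3 : (p + 1) * (lam + E * H) = (p + 1) * lam + (p + 1) * E * H := by ring
  have e4 : (p + 1) * (2 * τ) = 2 * τ * p + 2 * τ := by ring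
  omega

end Pool.Agent.Lib.MP_21a058_co.Lim
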