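import Pool.Agent.Lib.MP_21a058_co.Duo.Glue
import Pool.Agent.Lib.MP_21a058_co.Two.Fin

/-! MP_21a058_co, the limit form, (Q): the share of the kept edges in the boundary of a set which
is a disjoint union of few members of the family, from the rows of the members and the rows of
blocks between the members. -/

set_option autoImplicit false
set_option linter.unusedSectionVars false

namespace Pool.Agent.Lib.MP_21a058_co.Lim

open Finset
open Pool.Agent.Lib.MP_21a058_co.P Pool.Agent.Lib.MP_21a058_co.Every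
open Pool.Agent.Lib.MP_21a058_co.Two Pool.Agent.Lib.MP_21a058_co.Duo

theorem sum_one {ι : Type} (Q : Finset ι) (p : ι → Prop) [DecidablePred p]
    (h : ∀ i ∈ Q, ∀ j ∈ Q, p i → p j → i = j) [Decidable (∃ i ∈ Q, p i)] :
    ∑ i ∈ Q, (if p i then 1 else 0) = if ∃ i ∈ Q, p i then 1 else 0 := by
  classical
  rw [← card_filter]
  by_cases h1 : ∃ i ∈ Q, p i
  · rw [if_pos h1]
    obtain ⟨i, hi, hp⟩ := h1
    rw [card_eq_one]
    refine ⟨i, ?_⟩
    ext j
    rw [mem_filter, mem_singleton]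
    constructor
    · rintro ⟨hj, hpj⟩
      exact h j hj i hi hpj hp
    · rintro rfl
      exact ⟨hi, hp⟩
  · rw [if_neg h1, card_eq_zero, filter_eq_empty_iff]
    intro i hi hp
    exact h1 ⟨i, hi, hp⟩

variable {V E : Type} [Fintype V] [DecidableEq V] [Fintype E] [DecidableEq E] (a b : E → V)

/-- the edges inside `Y` between the members of `Q` -/
def btq (Q : Finset (Finset V)) (Y : Finset V) : Finset E := ins a b Y \ Q.biUnion (ins a b)

theorem mem_btq {Q : Finset (Finset V)} {Y : Finset V} {e : E} :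
    e ∈ btq a b Q Y ↔ (a e ∈ Y ∧ b e ∈ Y) ∧ ∀ Z ∈ Q, ¬ (a e ∈ Z ∧ b e ∈ Z) := by
  unfold btq
  rw [mem_sdiff, mem_ins, mem_biUnion]
  constructor
  · rintro ⟨h1, h2⟩
    exact ⟨h1, fun Z hZ h3 => h2 ⟨Z, hZ, (mem_ins a b).2 h3⟩⟩
  · rintro ⟨h1, h2⟩
    refine ⟨h1, ?_⟩
    rintro ⟨Z, hZ, h3⟩
    exact h2 Z hZ ((mem_ins a b).1 h3)

/-- every cut of the union of disjoint sets -/
theorem query_count {Q : Finset (Finset V)} {Y : Finset V}
    (hQd : ∀ A ∈ Q, ∀ B ∈ Q, A ≠ B → Disjoint A B) (hQY : Q.biUnion id = Y) (X : Finset E) :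
    ∑ Z ∈ Q, (X ∩ cut a b Z).card = (X ∩ cut a b Y).card + 2 * (X ∩ btq a b Q Y).card := by
  classical
  have h0 : ∀ S : Finset E, (X ∩ S).card = ∑ e ∈ X, if e ∈ S then 1 else 0 := by
    intro S
    rw [← card_filter, filter_mem_eq_inter]
  simp only [h0]
  rw [sum_comm, mul_sum, ← sum_add_distrib]
  refine sum_congr rfl fun e _ => ?_
  -- one edge
  have hmem : ∀ x : V, (∃ Z ∈ Q, x ∈ Z) ↔ x ∈ Y := by
    intro x
    rw [← hQY, mem_biUnion]
    rfl
  have huniq : ∀ x : V, ∀ A ∈ Q, ∀ B ∈ Q, x ∈ A → x ∈ B → A = B := by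
    intro x A hA B hB h1 h2
    by_contra hne
    exact disjoint_left.1 (hQd A hA B hB hne) h1 h2
  have e1 := sum_one Q (fun Z => a e ∈ Z) (huniq (a e))
  have e2 := sum_one Q (fun Z => b e ∈ Z) (huniq (b e))
  have e3 := sum_one Q (fun Z => a e ∈ Z ∧ b e ∈ Z)
    (fun A hA B hB h1 h2 => huniq (a e) A hA B hB h1.1 h2.1)
  have e4 : ∑ Z ∈ Q, (if e ∈ cut a b Z then 1 else 0) +
      2 * ∑ Z ∈ Q, (if a e ∈ Z ∧ b e ∈ Z then 1 else 0) =
      ∑ Z ∈ Q, (if a e ∈ Z then 1 else 0) + ∑ Z ∈ Q, (if b e ∈ Z then 1 else 0) := by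
    rw [mul_sum, ← sum_add_distrib, ← sum_add_distrib]
    refine sum_congr rfl fun Z _ => ?_
    have h1 : e ∈ cut a b Z ↔ ¬ (a e ∈ Z ↔ b e ∈ Z) := mem_cut a b
    by_cases h2 : a e ∈ Z <;> by_cases h3 : b e ∈ Z <;> simp [h1, h2, h3]
  rw [e1, e2, e3] at e4
  have h1 : e ∈ cut a b Y ↔ ¬ (a e ∈ Y ↔ b e ∈ Y) := mem_cut a b
  have h2 : e ∈ btq a b Q Y ↔ (a e ∈ Y ∧ b e ∈ Y) ∧ ¬ ∃ Z ∈ Q, a e ∈ Z ∧ b e ∈ Z := by
    rw [mem_btq]
    constructor
    · rintro ⟨h3, h4⟩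
      exact ⟨h3, fun ⟨Z, hZ, h5⟩ => h4 Z hZ h5⟩
    · rintro ⟨h3, h4⟩
      exact ⟨h3, fun Z hZ h5 => h4 ⟨Z, hZ, h5⟩⟩
  have h3 : (∃ Z ∈ Q, a e ∈ Z ∧ b e ∈ Z) → a e ∈ Y ∧ b e ∈ Y := by
    rintro ⟨Z, hZ, h4, h5⟩
    exact ⟨(hmem _).1 ⟨Z, hZ, h4⟩, (hmem _).1 ⟨Z, hZ, h5⟩⟩
  have h4 := hmem (a e)
  have h5 := hmem (b e)
  by_cases h6 : a e ∈ Y <;> by_cases h7 : b e ∈ Y <;>
    by_cases h8 : (∃ Z ∈ Q, a e ∈ Z ∧ b e ∈ Z) <;>
    simp only [h1, h2, h4, h5, h6, h7, h8, iff_true, iff_false, not_true_eq_false,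
      not_false_eq_true, and_true, and_false, if_true, if_false] at e4 h3 ⊢ <;> simp_all

/-- the trees have few edges between the members -/
theorem query_btw {t : ℕ} (T : Fin t → Finset E) (hT : Trees a b T) {Q : Finset (Finset V)}
    {Y : Finset V} (hQd : ∀ A ∈ Q, ∀ B ∈ Q, A ≠ B → Disjoint A B) (hQY : Q.biUnion id = Y)
    (hQT : ∀ Z ∈ Q, ∀ i, (T i ∩ ins a b Z).card + 1 = Z.card) :
    (un T ∩ btq a b Q Y).card ≤ t * Q.card := by
  classical
  rw [card_un_inter hT.2]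
  have h1 : ∑ i, (T i ∩ btq a b Q Y).card ≤ ∑ _i : Fin t, Q.card := by
    refine sum_le_sum fun i _ => ?_
    rcases Y.eq_empty_or_nonempty with hY | hY
    · have h2 : T i ∩ btq a b Q Y = ∅ := by
        rw [eq_empty_iff_forall_notMem]
        intro e he
        have h3 := ((mem_btq a b).1 (mem_inter.1 he).2).1.1
        rw [hY] at h3
        exact notMem_empty _ h3
      rw [h2, card_empty]
      exact Nat.zero_le _
    have h2 : (T i ∩ ins a b Y).card + 1 ≤ Y.card := by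
      have k1 := rk_ins_le a b hY
      have k2 := tree_indep a b (hT.1 i) (F := T i ∩ ins a b Y) inter_subset_left
      have k3 := rk_mono a b (inter_subset_right : T i ∩ ins a b Y ⊆ ins a b Y)
      omega
    have h3 : ∑ Z ∈ Q, Z.card = Y.card := by
      rw [← hQY, card_biUnion]
      · rfl
      · intro A hA B hB hne
        exact hQd A hA B hB hne
    have h4 : ∑ Z ∈ Q, ((T i ∩ ins a b Z).card + 1) = Y.card := by
      rw [← h3]
      exact sum_congr rfl fun Z hZ => hQT Z hZ i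
    rw [sum_add_distrib, ← card_eq_sum_ones] at h4
    have h5 : (T i ∩ btq a b Q Y).card + ∑ Z ∈ Q, (T i ∩ ins a b Z).card ≤
        (T i ∩ ins a b Y).card := by
      have k1 : ∑ Z ∈ Q, (T i ∩ ins a b Z).card = (Q.biUnion fun Z => T i ∩ ins a b Z).card := by
        rw [card_biUnion]
        intro A hA B hB hne
        change Disjoint (T i ∩ ins a b A) (T i ∩ ins a b B)
        rw [disjoint_left]
        intro e he he'
        exact disjoint_left.1 (hQd A hA B hB hne) ((mem_ins a b).1 (mem_inter.1 he).2).1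
          ((mem_ins a b).1 (mem_inter.1 he').2).1
      rw [k1, ← card_union_of_disjoint]
      · refine card_le_card fun e he => ?_
        rcases mem_union.1 he with he | he
        · rw [mem_inter] at he ⊢
          exact ⟨he.1, (mem_ins a b).2 ((mem_btq a b).1 he.2).1⟩
        · obtain ⟨Z, hZ, he⟩ := mem_biUnion.1 he
          rw [mem_inter] at he ⊢
          have k2 := (mem_ins a b).1 he.2
          refine ⟨he.1, (mem_ins a b).2 ?_⟩
          rw [← hQY]
          exact ⟨mem_biUnion.2 ⟨Z, hZ, k2.1⟩, mem_biUnion.2 ⟨Z, hZ, k2.2⟩⟩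
      · rw [disjoint_left]
        intro e he he'
        obtain ⟨Z, hZ, h6⟩ := mem_biUnion.1 he'
        exact ((mem_btq a b).1 (mem_inter.1 he).2).2 Z hZ ((mem_ins a b).1 (mem_inter.1 h6).2)
    omega
  rwa [sum_const, card_univ, Fintype.card_fin, smul_eq_mul] at h1

/-- the numbers -/
theorem query_num {t σ h L P x y β γ cov nb : ℕ} (hσ : σ ≤ t)
    (h1 : t * (x + 2 * β) ≤ σ * (y + 2 * γ) + h * t * P)
    (h2 : σ * cov ≤ t * β + h * t * nb) (h3 : γ ≤ cov + L * P) (h4 : L * nb ≤ t * P) :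
    L * (t * x) ≤ L * (σ * y) + t * P * (2 * L * L + L * h + 2 * h * t) := by
  have e1 : σ * γ ≤ σ * cov + σ * (L * P) := by
    rw [← mul_add]
    exact Nat.mul_le_mul_left _ h3
  have e2 : σ * (L * P) ≤ t * (L * P) := Nat.mul_le_mul_right _ hσ
  have e3 : t * x ≤ σ * y + 2 * (h * t * nb) + 2 * (t * (L * P)) + h * t * P := by
    nlinarith
  have e4 : L * (t * x) ≤ L * (σ * y + 2 * (h * t * nb) + 2 * (t * (L * P)) + h * t * P) :=
    Nat.mul_le_mul_left _ e3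
  have e5 : 2 * (h * t) * (L * nb) ≤ 2 * (h * t) * (t * P) := Nat.mul_le_mul_left _ h4
  calc L * (t * x) ≤ L * (σ * y + 2 * (h * t * nb) + 2 * (t * (L * P)) + h * t * P) := e4
    _ = L * (σ * y) + 2 * (h * t) * (L * nb) + t * P * (2 * L * L + L * h) := by ring
    _ ≤ L * (σ * y) + 2 * (h * t) * (t * P) + t * P * (2 * L * L + L * h) := by omega
    _ = L * (σ * y) + t * P * (2 * L * L + L * h + 2 * h * t) := by ring

/-- **the query** -/
theorem query {t : ℕ} (T : Fin t → Finset E) (hT : Trees a b T) (X : Finset E)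
    (Y : Finset V) (Q : Finset (Finset V)) (hQd : ∀ A ∈ Q, ∀ B ∈ Q, A ≠ B → Disjoint A B)
    (hQY : Q.biUnion id = Y) (hQT : ∀ Z ∈ Q, ∀ i, (T i ∩ ins a b Z).card + 1 = Z.card)
    (σ h L : ℕ) (hσ : σ ≤ t)
    (hrow : ∀ Z ∈ Q, t * (X ∩ cut a b Z).card ≤ σ * (un T ∩ cut a b Z).card + h * t)
    (Bs : Finset (Finset E)) (hBd : ∀ β ∈ Bs, ∀ γ ∈ Bs, β ≠ γ → Disjoint β γ)
    (hBs : ∀ β ∈ Bs, β ⊆ un T ∩ ins a b Y ∧ ∀ Z ∈ Q, Disjoint β (ins a b Z))
    (hBL : ∀ β ∈ Bs, L ≤ β.card)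
    (hcov : ((un T ∩ ins a b Y) \ (Q.biUnion (ins a b) ∪ Bs.biUnion id)).card ≤ L * Q.card)
    (hblk : ∀ β ∈ Bs, σ * β.card ≤ t * (X ∩ β).card + h * t) :
    L * (t * (X ∩ cut a b Y).card) ≤ L * (σ * (un T ∩ cut a b Y).card) +
      t * Q.card * (2 * L * L + L * h + 2 * h * t) := by
  classical
  have h1 := query_count a b hQd hQY X
  have h2 := query_count a b hQd hQY (un T)
  have h3 := query_btw a b T hT hQd hQY hQT
  have h4 : t * ∑ Z ∈ Q, (X ∩ cut a b Z).card ≤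
      σ * ∑ Z ∈ Q, (un T ∩ cut a b Z).card + h * t * Q.card := by
    have k1 := sum_le_sum hrow
    rw [sum_add_distrib, ← mul_sum, ← mul_sum, sum_const, smul_eq_mul] at k1
    rwa [mul_comm Q.card] at k1
  rw [h1, h2] at h4
  -- the blocks
  have hcard : (Bs.biUnion id).card = ∑ β ∈ Bs, β.card := by
    rw [card_biUnion]
    · rfl
    · intro β hβ γ hγ hne
      exact hBd β hβ γ hγ hne
  have hXc : (X ∩ Bs.biUnion id).card = ∑ β ∈ Bs, (X ∩ β).card := by
    rw [inter_biUnion, card_biUnion]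
    · rfl
    · intro β hβ γ hγ hne
      exact (hBd β hβ γ hγ hne).mono inter_subset_right inter_subset_right
  have hsub : Bs.biUnion id ⊆ un T ∩ btq a b Q Y := by
    intro e he
    obtain ⟨β, hβ, h5⟩ := mem_biUnion.1 he
    obtain ⟨k1, k2⟩ := hBs β hβ
    have k3 := mem_inter.1 (k1 h5)
    refine mem_inter.2 ⟨k3.1, (mem_btq a b).2 ⟨(mem_ins a b).1 k3.2, fun Z hZ k4 => ?_⟩⟩
    exact disjoint_left.1 (k2 Z hZ) h5 ((mem_ins a b).2 k4)
  have h5 : σ * (Bs.biUnion id).card ≤ t * (X ∩ btq a b Q Y).card + h * t * Bs.card := by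
    have k1 := sum_le_sum hblk
    rw [sum_add_distrib, ← mul_sum, ← mul_sum, sum_const, smul_eq_mul, ← hcard, ← hXc,
      mul_comm Bs.card] at k1
    refine k1.trans (Nat.add_le_add_right (Nat.mul_le_mul_left _ (card_le_card ?_)) _)
    intro e he
    rw [mem_inter] at he ⊢
    exact ⟨he.1, (mem_inter.1 (hsub he.2)).2⟩
  have h6 : (un T ∩ btq a b Q Y).card ≤ (Bs.biUnion id).card + L * Q.card := by
    have k1 : un T ∩ btq a b Q Y ⊆ Bs.biUnion id ∪
        (un T ∩ ins a b Y) \ (Q.biUnion (ins a b) ∪ Bs.biUnion id) := by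
      intro e he
      obtain ⟨k2, k3⟩ := mem_inter.1 he
      obtain ⟨k4, k5⟩ := mem_sdiff.1 k3
      by_cases k6 : e ∈ Bs.biUnion id
      · exact mem_union_left _ k6
      · refine mem_union_right _ (mem_sdiff.2 ⟨mem_inter.2 ⟨k2, k4⟩, ?_⟩)
        rw [mem_union]
        rintro (k7 | k7)
        · exact k5 k7
        · exact k6 k7
    have k2 := card_le_card k1
    have k3 := card_union_le (Bs.biUnion id)
      ((un T ∩ ins a b Y) \ (Q.biUnion (ins a b) ∪ Bs.biUnion id))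
    omega
  have h7 : L * Bs.card ≤ t * Q.card := by
    have k1 : ∑ _β ∈ Bs, L ≤ ∑ β ∈ Bs, β.card := sum_le_sum hBL
    rw [sum_const, smul_eq_mul, ← hcard] at k1
    have k2 := card_le_card hsub
    rw [mul_comm]
    omega
  exact query_num hσ h4 h5 h6 h7

end Pool.Agent.Lib.MP_21a058_co.Lim
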