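import Pool.Agent.Lib.MP_21a058_co.Lim.ResSel
import Pool.Agent.Lib.MP_21a058_co.Lim.SelAll

/-! MP_21a058_co, the limit form with an explicit constant and an explicit rate. -/

set_option linter.unusedSectionVars false
set_option linter.unusedVariables false

namespace Pool.Agent.Lib.MP_21a058_co.Lim

open Finset
open scoped Classical
open Pool.Agent.Lib.MP_21a058_co.P
open Pool.Agent.Lib.MP_21a058_co.Swap

/-- `exists_nums` together with the value of `B1`. -/
theorem exists_numsX (n : ℕ) (hn : 1 ≤ n) :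
    ∃ y p mo A0 B1 M E X Th C9 c H0 : ℕ, y = 960 * (n * n * n) * (4 * n * 2 ^ (4 * n)) ∧
      B1 = y * y ∧ Nums n p mo A0 B1 M E X Th C9 c H0 := by
  obtain ⟨p, hp⟩ : ∃ p, p = 4 * n := ⟨_, rfl⟩
  obtain ⟨A0, hA0⟩ : ∃ A0, A0 = p * 2 ^ p := ⟨_, rfl⟩
  have hA1 : 1 ≤ A0 := by
    rw [hA0]
    exact Nat.mul_pos (by omega) (Nat.pos_of_ne_zero (by positivity))
  obtain ⟨y, hy⟩ : ∃ y, y = 960 * (n * n * n) * A0 := ⟨_, rfl⟩
  have hn3 : 1 ≤ n * n * n := Nat.mul_pos (Nat.mul_pos hn hn) hn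
  have hy1 : 1 ≤ y := by
    rw [hy]
    exact Nat.mul_pos (by omega) hA1
  have hy3 : 1 ≤ y * y * y := Nat.mul_pos (Nat.mul_pos hy1 hy1) hy1
  refine ⟨y, p, 2 ^ p + 1, A0, y * y, y * y * (y * y), 960 * (n * n) * A0 * (y * y * y),
    60 * n * A0 * (y * y * y), 10 * A0 * (y * y * y), 2 * (2 ^ p + 1) * (y * y * (y * y)),
    64 + 16 * (2 * (2 ^ p + 1) * (y * y * (y * y))),
    48 * (2 ^ p + 1) + 4 * (64 + 16 * (2 * (2 ^ p + 1) * (y * y * (y * y)))) + 4,
    by rw [hy, hA0, hp], rfl, ?_⟩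
  have hY : y * y * (y * y) = 960 * (n * n * n) * A0 * (y * y * y) := by
    have : y * y * (y * y) = y * (y * y * y) := by ring
    rw [this]
    exact congrArg (· * (y * y * y)) hy
  have hnA : 1 ≤ n * A0 * (y * y * y) := Nat.mul_pos (Nat.mul_pos hn hA1) hy3
  refine ⟨hn, hp, rfl, hA0, Nat.mul_pos hy1 hy1, rfl, ?_, ?_, ?_, ?_, ?_, ?_, ?_, rfl, rfl, rfl⟩
  · rw [hY]
    ring
  · have : 60 * n * A0 * (y * y * y) = 60 * (n * A0 * (y * y * y)) := by ring
    omega
  · rw [hY]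
    ring
  · have : 10 * A0 * (y * y * y) = 10 * (A0 * (y * y * y)) := by ring
    have h2 : 1 ≤ A0 * (y * y * y) := Nat.mul_pos hA1 hy3
    omega
  · have e1 : 3 * n * (10 * A0 * (y * y * y) + 1) = 30 * (n * A0 * (y * y * y)) + 3 * n := by
      ring
    have e2 : 60 * n * A0 * (y * y * y) = 60 * (n * A0 * (y * y * y)) := by ring
    have e3 : n ≤ n * A0 * (y * y * y) := by
      have : n * A0 * (y * y * y) = n * (A0 * (y * y * y)) := by ring
      rw [this]
      exact Nat.le_mul_of_pos_right _ (Nat.mul_pos hA1 hy3)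
    omega
  · rw [hY, hp]
    have e1 : 4 * n * (960 * (n * n) * A0 * (y * y * y)) =
        3840 * (n * n * n * A0 * (y * y * y)) := by ring
    have e2 : 2 * (960 * (n * n * n) * A0 * (y * y * y)) =
        1920 * (n * n * n * A0 * (y * y * y)) := by ring
    have e3 : 4 * n * (4 * n + 1) * (60 * n * A0 * (y * y * y) + 1) =
        960 * (n * n * n * A0 * (y * y * y)) + 240 * (n * n * A0 * (y * y * y)) +
          16 * (n * n) + 4 * n := by ring
    have e4 : n * n * A0 * (y * y * y) ≤ n * n * n * A0 * (y * y * y) := by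
      refine Nat.mul_le_mul_right _ (Nat.mul_le_mul_right _ ?_)
      exact Nat.le_mul_of_pos_right _ hn
    have e5 : n * n ≤ n * n * n * A0 * (y * y * y) := by
      have : n * n * n * A0 * (y * y * y) = n * n * (n * A0 * (y * y * y)) := by ring
      rw [this]
      exact Nat.le_mul_of_pos_right _ hnA
    have e6 : n ≤ n * n := Nat.le_mul_of_pos_right _ hn
    rw [e1, e2, e3]
    omega
  · have e1 : 2 * (y * y * (y * y)) * (A0 * (4 * (y * y) + 1)) =
        8 * (A0 * (y * y * y * (y * y * y))) + 2 * (A0 * (y * y * (y * y))) := by ring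
    have e2 : 10 * A0 * (y * y * y) * (10 * A0 * (y * y * y)) =
        100 * (A0 * (A0 * (y * y * y * (y * y * y)))) := by ring
    have e3 : A0 * (y * y * (y * y)) ≤ A0 * (y * y * y * (y * y * y)) := by
      refine Nat.mul_le_mul_left _ ?_
      have : y * y * y * (y * y * y) = y * y * (y * y) * (y * y) := by ring
      rw [this]
      exact Nat.le_mul_of_pos_right _ (Nat.mul_pos hy1 hy1)
    have e4 : A0 * (y * y * y * (y * y * y)) ≤ A0 * (A0 * (y * y * y * (y * y * y))) :=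
      Nat.le_mul_of_pos_left _ hA1
    rw [e1, e2]
    omega

/-- The size of the constants. -/
theorem nums_size {n y p mo A0 B1 M E X Th C9 c H0 : ℕ}
    (h : Nums n p mo A0 B1 M E X Th C9 c H0)
    (hy : y = 960 * (n * n * n) * (4 * n * 2 ^ (4 * n))) (hB : B1 = y * y) :
    2 * (M * H0) + 2 * M + 2 ≤ 2 ^ (68 * n + 109) := by
  obtain ⟨P, hP⟩ : ∃ P, P = 2 ^ n := ⟨_, rfl⟩
  have hnP : n ≤ P := by
    rw [hP]
    exact Nat.lt_two_pow_self.le
  have hP1 : 1 ≤ P := by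
    rw [hP]
    exact Nat.one_le_two_pow
  have hP4 : 2 ^ (4 * n) = P ^ 4 := by
    rw [hP, ← pow_mul, Nat.mul_comm]
  have hy1 : y ≤ 4096 * P ^ 8 := by
    rw [hy, hP4]
    calc 960 * (n * n * n) * (4 * n * P ^ 4) ≤ 1024 * (P * P * P) * (4 * P * P ^ 4) := by
          refine Nat.mul_le_mul (Nat.mul_le_mul (by omega) ?_) ?_
          · exact Nat.mul_le_mul (Nat.mul_le_mul hnP hnP) hnP
          · exact Nat.mul_le_mul_right _ (Nat.mul_le_mul_left _ hnP)
      _ = 4096 * P ^ 8 := by ring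
  have hM : M ≤ 2 ^ 48 * P ^ 32 := by
    rw [h.hM, hB]
    calc y * y * (y * y) ≤ 4096 * P ^ 8 * (4096 * P ^ 8) * (4096 * P ^ 8 * (4096 * P ^ 8)) :=
          Nat.mul_le_mul (Nat.mul_le_mul hy1 hy1) (Nat.mul_le_mul hy1 hy1)
      _ = 2 ^ 48 * P ^ 32 := by ring
  have hM1 : 1 ≤ M := h.M_pos
  have hmo : mo ≤ 2 * P ^ 4 := by
    have h1 : 1 ≤ P ^ 4 := Nat.one_le_pow _ _ hP1
    rw [h.hmo, h.hp, hP4]
    omega
  have hmo1 : 1 ≤ mo := by
    rw [h.hmo]
    exact Nat.le_add_left 1 _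
  have hH0 : H0 ≤ 1024 * (P ^ 4 * M) := by
    have e1 : H0 = 48 * mo + 260 + 128 * (mo * M) := by
      rw [h.hH0, h.hc, h.hC9]
      ring
    have e2 : mo ≤ mo * M := Nat.le_mul_of_pos_right _ hM1
    have e3 : mo * M ≤ 2 * P ^ 4 * M := Nat.mul_le_mul_right _ hmo
    have e4 : 1024 * (P ^ 4 * M) = 512 * (2 * P ^ 4 * M) := by ring
    rw [e4]
    omega
  have hMH : M * H0 ≤ 2 ^ 106 * P ^ 68 := by
    calc M * H0 ≤ 2 ^ 48 * P ^ 32 * (1024 * (P ^ 4 * (2 ^ 48 * P ^ 32))) :=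
          Nat.mul_le_mul hM (hH0.trans (Nat.mul_le_mul_left _ (Nat.mul_le_mul_left _ hM)))
      _ = 2 ^ 106 * P ^ 68 := by ring
  have h68 : 1 ≤ P ^ 68 := Nat.one_le_pow _ _ hP1
  have hMM : M ≤ 2 ^ 106 * P ^ 68 := by
    refine hM.trans (Nat.mul_le_mul (by norm_num) ?_)
    exact Nat.pow_le_pow_right hP1 (by norm_num)
  have e5 : 2 ^ (68 * n + 109) = 8 * (2 ^ 106 * P ^ 68) := by
    have : P ^ 68 = 2 ^ (68 * n) := by
      rw [hP, ← pow_mul, Nat.mul_comm]
    rw [this, pow_add]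
    ring
  rw [e5]
  have h106 : 1 ≤ 2 ^ 106 * P ^ 68 := Nat.mul_pos (by norm_num) h68
  omega

/-- `arrow_lim_of` for given numbers, with its constant. -/
theorem arrow_lim_num {M H0 E X d q : ℕ} (hq : 1 ≤ q) (hM : 1 ≤ M) (hX : 1 ≤ X)
    (h1 : 3 * (q + 1) * E ≤ M) (h2 : 3 * (q + 1) * X ≤ M) (h3 : 3 * (3 * (q + 1)) * d ≤ X)
    (hL : LimAll M H0 E X d) (r : ℕ) (ks : Fin r → ℕ) (m : ℕ) (g : Fin m → Fin r)
    (hg : Function.Injective g) (k k' : ℕ)
    (hA : Pool.Agent.Lib.MP_21a058_co.Arrow k' (fun x => ks (g x)))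
    (h : (q + 1) * (2 * (∑ i ∈ univ \ univ.image g, ks i) + k') +
      q * (2 * (M * H0) + 2 * M + 2) ≤ q * k) :
    Pool.Agent.Lib.MP_21a058_co.Arrow k ks := by
  obtain ⟨s, hs⟩ : ∃ s, s = ∑ i ∈ univ \ univ.image g, ks i := ⟨_, rfl⟩
  rw [← hs] at h
  obtain ⟨H, hH⟩ : ∃ H, H = k / 2 / M := ⟨_, rfl⟩
  have a1 : M * H ≤ k / 2 := by
    rw [hH]
    exact Nat.mul_div_le _ _
  have a2 : k / 2 < M * (H + 1) := by
    have := Nat.lt_mul_div_succ (k / 2) (show 0 < M by omega)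
    rw [← hH] at this
    exact this
  have a3 : 2 * (M * H0) + 2 * M + 2 ≤ k := by
    have : q * (2 * (M * H0) + 2 * M + 2) ≤ q * k := by omega
    exact Nat.le_of_mul_le_mul_left this (by omega)
  have a4 : H0 ≤ H := by
    by_contra hh
    push Not at hh
    have : M * (H + 1) ≤ M * H0 := Nat.mul_le_mul_left _ hh
    omega
  have a6 : 1 ≤ H := by
    by_contra hh
    have h0 : H = 0 := by omega
    rw [h0] at a2
    omega
  have a5 : M * (H + 1) = M * H + M := by ring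
  have hcore : Core (M * H) 0 s k' := by
    refine core_of_lim hL (by omega) hX h1 h2 h3 a4 a6 ?_
    have b1 : q * k ≤ q * (2 * (M * H) + 2 * M) := Nat.mul_le_mul_left _ (by omega)
    have b2 : q * (2 * (M * H) + 2 * M) = 2 * (q * (M * H)) + q * (2 * M) := by ring
    have b3 : q * (2 * (M * H0) + 2 * M + 2) = q * (2 * (M * H0) + 2) + q * (2 * M) := by ring
    have b4 : (q + 1) * (2 * s + k') ≤ 2 * (q * (M * H)) := by omega
    have b5 : 3 * (q + 1) * (2 * s + k') = 3 * ((q + 1) * (2 * s + k')) := by ring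
    have b6 : 2 * (3 * (q + 1)) * (M * H) = 6 * (q * (M * H)) + 6 * (M * H) := by ring
    rw [b5, b6]
    omega
  have h4 := arrow_core_on (t := M * H) (u := 0) (s := s) (l := k') hcore ks g hg (le_of_eq hs.symm)
    le_rfl hA
  exact arrow_mono (show 2 * (M * H + 0) ≤ k by omega) h4

/-- **The limit form with an explicit constant:** if `k'` suffices for the selected parts and
`(q + 1) (2 (sum of the other parts) + k') + 2 ^ (520 q) ≤ q k`, then `k` suffices for all parts. -/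
theorem arrow_lim_pow (q : ℕ) (hq : 1 ≤ q) (r : ℕ) (ks : Fin r → ℕ) (m : ℕ) (g : Fin m → Fin r)
    (hg : Function.Injective g) (k k' : ℕ)
    (hA : Pool.Agent.Lib.MP_21a058_co.Arrow k' (fun x => ks (g x)))
    (h : (q + 1) * (2 * (∑ i ∈ univ \ univ.image g, ks i) + k') + 2 ^ (520 * q) ≤ q * k) :
    Pool.Agent.Lib.MP_21a058_co.Arrow k ks := by
  obtain ⟨y, p, mo, A0, B1, M, E, X, Th, C9, c, H0, hy, hB, hN⟩ :=
    exists_numsX (3 * (q + 1)) (by omega)
  have hs := nums_size hN hy hB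
  have hL : LimAll M H0 E X (Th + 1) :=
    limAll hN (c' := c) (by have := hN.hH0; omega) fun H hH => selAll hN H hH
  refine arrow_lim_num hq hN.M_pos (by have := hN.hX; omega) hN.nE hN.nX hN.hd hL r ks m g hg
    k k' hA (le_trans (Nat.add_le_add_left ?_ _) h)
  calc q * (2 * (M * H0) + 2 * M + 2) ≤ 2 ^ q * 2 ^ (68 * (3 * (q + 1)) + 109) :=
        Nat.mul_le_mul Nat.lt_two_pow_self.le hs
    _ = 2 ^ (q + (68 * (3 * (q + 1)) + 109)) := by rw [← pow_add]
    _ ≤ 2 ^ (520 * q) := Nat.pow_le_pow_right (by norm_num) (by omega)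

/-- **The rate:** there is an absolute constant `c` such that `k` suffices for all parts if `k'`
suffices for the selected parts and `x + c x / (1 + log x) + c ≤ k`,
`x = 2 (sum of the other parts) + k'`. -/
theorem arrow_rate : ∃ c : ℕ, ∀ (r : ℕ) (ks : Fin r → ℕ) (m : ℕ) (g : Fin m → Fin r),
    Function.Injective g → ∀ k k' x : ℕ,
    Pool.Agent.Lib.MP_21a058_co.Arrow k' (fun i => ks (g i)) →
    x = 2 * (∑ i ∈ univ \ univ.image g, ks i) + k' →
    x + c * x / (Nat.log 2 x + 1) + c ≤ k →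
    Pool.Agent.Lib.MP_21a058_co.Arrow k ks := by
  obtain ⟨K, hK⟩ : ∃ K : ℕ, K = 2 ^ 520 := ⟨_, rfl⟩
  refine ⟨520 * (K + 1), fun r ks m g hg k k' x hA hx h => ?_⟩
  obtain ⟨L, hL⟩ : ∃ L, L = Nat.log 2 x := ⟨_, rfl⟩
  rw [← hL] at h
  obtain ⟨q, hq⟩ : ∃ q, q = L / 520 + 1 := ⟨_, rfl⟩
  have hq1 : 1 ≤ q := by omega
  have hLq : L + 1 ≤ 520 * q := by omega
  have hC : 2 ^ (520 * q) ≤ K * (x + 1) := by
    have e1 : 520 * q = 520 * (L / 520) + 520 := by
      rw [hq]
      ring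
    have e2 : 2 ^ (520 * (L / 520)) ≤ x + 1 := by
      have e3 : 2 ^ (520 * (L / 520)) ≤ 2 ^ L :=
        Nat.pow_le_pow_right (by norm_num) (Nat.mul_div_le _ _)
      rcases Nat.eq_zero_or_pos x with h0 | h0
      · rw [h0, Nat.log_zero_right] at hL
        rw [hL, h0]
        exact Nat.le_refl 1
      · have e4 := Nat.pow_log_le_self 2 (Nat.pos_iff_ne_zero.1 h0)
        rw [← hL] at e4
        omega
    rw [e1, pow_add, ← hK, Nat.mul_comm]
    exact Nat.mul_le_mul_left _ e2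
  -- the quotient
  have hd : (K + 1) * x ≤ q * (520 * (K + 1) * x / (L + 1)) + q := by
    have e1 : 520 * (K + 1) * x / (520 * q) ≤ 520 * (K + 1) * x / (L + 1) :=
      Nat.div_le_div_left hLq (by omega)
    have e2 : 520 * (K + 1) * x / (520 * q) = (K + 1) * x / q := by
      rw [Nat.mul_assoc]
      exact Nat.mul_div_mul_left _ _ (by norm_num)
    have e3 : (K + 1) * x < q * ((K + 1) * x / q + 1) := Nat.lt_mul_div_succ _ (by omega)
    have e4 : q * ((K + 1) * x / q + 1) = q * ((K + 1) * x / q) + q := by ring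
    have e5 : q * ((K + 1) * x / q) ≤ q * (520 * (K + 1) * x / (L + 1)) :=
      Nat.mul_le_mul_left _ (by omega)
    omega
  refine arrow_lim_pow q hq1 r ks m g hg k k' hA ?_
  rw [← hx]
  have f1 : q * (x + 520 * (K + 1) * x / (L + 1) + 520 * (K + 1)) ≤ q * k :=
    Nat.mul_le_mul_left _ h
  have f2 : q * (x + 520 * (K + 1) * x / (L + 1) + 520 * (K + 1)) =
      q * x + q * (520 * (K + 1) * x / (L + 1)) + 520 * (q * (K + 1)) := by ring
  have f3 : q ≤ q * (K + 1) := Nat.le_mul_of_pos_right _ (by omega)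
  have f4 : K + 1 ≤ q * (K + 1) := Nat.le_mul_of_pos_left _ hq1
  have f5 : (q + 1) * x = q * x + x := by ring
  have f6 : (K + 1) * x = K * x + x := by ring
  have f7 : K * (x + 1) = K * x + K := by ring
  omega

end Pool.Agent.Lib.MP_21a058_co.Lim
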