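import Pool.Agent.Lib.MP_21a058_co.Lim.ResSel
import Pool.Agent.Lib.MP_21a058_co.Lim.SelAll

/-! MP_21a058_co, the limit form: the result. -/

set_option linter.unusedSectionVars false
set_option linter.unusedVariables false

namespace Pool.Agent.Lib.MP_21a058_co.Lim

open Finset
open scoped Classical

/-- For every `q ≥ 1` there is `C` such that for all tuples and every selection `g` of parts: if
`k'` suffices for the selected parts and `(q + 1) (2 (sum of the other parts) + k') + C ≤ q k`,
then `k` suffices for all parts. -/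
theorem arrow_lim (q : ℕ) (hq : 1 ≤ q) :
    ∃ C : ℕ, ∀ (r : ℕ) (ks : Fin r → ℕ) (m : ℕ) (g : Fin m → Fin r), Function.Injective g →
      ∀ k k' : ℕ, Pool.Agent.Lib.MP_21a058_co.Arrow k' (fun x => ks (g x)) →
      (q + 1) * (2 * (∑ i ∈ univ \ univ.image g, ks i) + k') + C ≤ q * k →
      Pool.Agent.Lib.MP_21a058_co.Arrow k ks := by
  refine arrow_lim_sel (fun n p mo A0 B1 M E X Th C9 c H0 h => ?_) q hq
  exact ⟨c, by have := h.hH0; omega, fun H hH => selAll h H hH⟩

end Pool.Agent.Lib.MP_21a058_co.Lim
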