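import Pool.Agent.Lib.MP_21a058_co.Lim.Num
import Pool.Agent.Lib.MP_21a058_co.Lim.NumB
import Pool.Agent.Lib.MP_21a058_co.Lim.RoundsAll

/-! MP_21a058_co, the limit form: the result over the selection. -/

set_option linter.unusedSectionVars false
set_option linter.unusedVariables false

namespace Pool.Agent.Lib.MP_21a058_co.Lim

open Finset
open scoped Classical

theorem arrow_lim_sel
    (hsel : ∀ n p mo A0 B1 M E X Th C9 c H0 : ℕ, Nums n p mo A0 B1 M E X Th C9 c H0 →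
      ∃ cc : ℕ, cc ≤ H0 ∧ ∀ H, H0 ≤ H → SelAll p (X - 1) Th M Th (A0 * (4 * B1 + 1)) cc H)
    (q : ℕ) (hq : 1 ≤ q) :
    ∃ C : ℕ, ∀ (r : ℕ) (ks : Fin r → ℕ) (m : ℕ) (g : Fin m → Fin r), Function.Injective g →
      ∀ k k' : ℕ, Pool.Agent.Lib.MP_21a058_co.Arrow k' (fun x => ks (g x)) →
      (q + 1) * (2 * (∑ i ∈ univ \ univ.image g, ks i) + k') + C ≤ q * k →
      Pool.Agent.Lib.MP_21a058_co.Arrow k ks := by
  refine arrow_lim_of (fun n hn => ?_) q hq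
  obtain ⟨p, mo, A0, B1, M, E, X, Th, C9, c, H0, h⟩ := exists_nums n hn
  obtain ⟨cc, hcc, hs⟩ := hsel _ _ _ _ _ _ _ _ _ _ _ _ h
  refine ⟨M, H0, E, X, Th + 1, h.M_pos, h.H0_pos, ?_, h.nE, h.nX, h.hd, limAll h hcc hs⟩
  have := h.hX
  omega

end Pool.Agent.Lib.MP_21a058_co.Lim
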