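import Pool.Agent.Lib.MP_21a058_co.Iter.Iter

/-! MP_21a058_co, one round of the limit theorem. The state is `Iter.State`: a packing `P` of `w`
trees still to be used, `tau` trees outside, `lam` a lower bound for the cuts outside `P`. The
selection keeps `s` trees `C` of `P` and puts `q` trees `D` and everything else outside; on the
near cuts the kept part is at most its fair share `(s + c) / t` plus the error `E2 / K`. -/

set_option autoImplicit false

namespace Pool.Agent.Lib.MP_21a058_co.Lim

open Finset
open Pool.Agent.Lib.MP_21a058_co.P Pool.Agent.Lib.MP_21a058_co.Every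
open Pool.Agent.Lib.MP_21a058_co.Swap Pool.Agent.Lib.MP_21a058_co.Iter

variable {V E : Type} [Fintype V] [DecidableEq V] [Fintype E] [DecidableEq E] {a b : E → V}

/-- the numbers of a near cut: `dR` edges outside, `dP` edges of the pool, `dC` edges kept,
`x` the share which is given away, `F` the total loss -/
theorem near_num {K E2 m t x s' lam dR dP dC F : ℕ} (ht : 0 < t) (hK : 0 < K)
    (hst : s' + x = t) (hC : dC ≤ dP) (hsel : K * t * dC ≤ (K * s' + E2 * t) * dP)
    (hG : 2 * m ≤ dR + dP) (hlam : lam ≤ dR) (h2 : lam + 2 * t ≤ 2 * m)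
    (hE : 2 * m * E2 ≤ K * F) : lam + 2 * x ≤ dR + dP - dC + F := by
  have key : K * t * (lam + 2 * x) ≤ K * t * (dR + dP - dC + F) := by
    zify [show dC ≤ dR + dP by omega] at *
    obtain ⟨y, hy⟩ : ∃ y : ℤ, y = K * x - E2 * t := ⟨_, rfl⟩
    have hx0 : (0 : ℤ) ≤ x := Int.natCast_nonneg x
    have hs0 : (0 : ℤ) ≤ s' := Int.natCast_nonneg s'
    have hE0 : (0 : ℤ) ≤ E2 := Int.natCast_nonneg E2
    have hdP0 : (0 : ℤ) ≤ dP := Int.natCast_nonneg dP
    have h1 : (K : ℤ) * t * (dP - dC) ≥ y * dP := by
      have e1 : (K : ℤ) * t * dP - (K * s' + E2 * t) * dP = y * dP := by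
        rw [hy, ← hst]
        ring
      nlinarith
    by_cases hy0 : y ≤ 0
    · -- the claimed bound is below `lam`
      have h3 : (K : ℤ) * t * (2 * x) ≤ K * t * F := by
        have h4 : (K : ℤ) * x ≤ E2 * t := by linarith
        have h5 : (2 : ℤ) * t ≤ 2 * m := by
          have : (0 : ℤ) ≤ lam := Int.natCast_nonneg lam
          linarith
        have h6 : (E2 : ℤ) * (2 * t) ≤ E2 * (2 * m) := mul_le_mul_of_nonneg_left h5 hE0
        have h7 : (2 : ℤ) * (K * x) ≤ K * F := by nlinarith
        have h8 := mul_le_mul_of_nonneg_left h7 ht.le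
        nlinarith
      have h9 : (K : ℤ) * t * (lam) ≤ K * t * (dR + dP - dC) := by
        apply mul_le_mul_of_nonneg_left _ (mul_nonneg hK.le ht.le)
        linarith
      nlinarith
    · push Not at hy0
      have h3 : y * (2 * m - lam) ≤ K * t * (dR - lam) + y * dP := by
        have h4 : y ≤ K * t := by
          rw [hy]
          have h5 : (K : ℤ) * x ≤ K * t := mul_le_mul_of_nonneg_left (by linarith) hK.le
          have h6 : (0 : ℤ) ≤ E2 * t := mul_nonneg hE0 ht.le
          linarith
        have h5 : y * (dR - lam) ≤ K * t * (dR - lam) :=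
          mul_le_mul_of_nonneg_right h4 (by linarith)
        have h6 : y * (2 * m - lam) ≤ y * (dR - lam + dP) :=
          mul_le_mul_of_nonneg_left (by linarith) hy0.le
        nlinarith
      have h4 : (K : ℤ) * t * (2 * x) ≤ y * (2 * m - lam) + K * t * F := by
        have e1 : y * (2 * m - lam) = K * x * (2 * m - lam) - E2 * t * (2 * m - lam) := by
          rw [hy]
          ring
        have h5 : (K : ℤ) * x * (2 * t) ≤ K * x * (2 * m - lam) :=
          mul_le_mul_of_nonneg_left (by linarith) (mul_nonneg hK.le hx0)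
        have h6 : (E2 : ℤ) * t * (2 * m - lam) ≤ E2 * t * (2 * m) := by
          apply mul_le_mul_of_nonneg_left _ (mul_nonneg hE0 ht.le)
          have : (0 : ℤ) ≤ lam := Int.natCast_nonneg lam
          linarith
        have h7 : (t : ℤ) * (2 * m * E2) ≤ t * (K * F) := mul_le_mul_of_nonneg_left hE ht.le
        nlinarith
      nlinarith
  exact Nat.le_of_mul_le_mul_left key (Nat.mul_pos hK ht)

/-- what the selection gives for a pool `P`: `s` trees kept, `q` trees outside, and the share
`s' / t` up to the error `E2 / K` on every near cut -/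
def SelAt (a b : E → V) (r : V) (K E2 s q s' t u lam : ℕ) {w : ℕ} (P : Fin w → Finset E) :
    Prop :=
  ∃ (C : Fin s → Finset E) (D : Fin q → Finset E), Trees a b C ∧ Trees a b D ∧
    un C ⊆ un P ∧ un D ⊆ un P ∧ Disjoint (un C) (un D) ∧
    ∀ Y : Finset V, Y.Nonempty → r ∉ Y → (cut a b Y \ un P).card ≤ lam + u →
      K * t * (un C ∩ cut a b Y).card ≤ (K * s' + E2 * t) * (un P ∩ cut a b Y).card

/-- **one round** -/
theorem round {r : V} {K E2 m w tau lam s q c t u F lam' : ℕ} (ht : 0 < t) (hK : 0 < K)
    (hst : s + c + (q + c) = t) (htw : t ≤ w) (hm : lam + 2 * w ≤ 2 * m)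
    (hE : 2 * m * E2 ≤ K * F)
    (hcut : ∀ Y : Finset V, Y.Nonempty → Y ≠ univ → 2 * m ≤ (cut a b Y).card)
    {P : Fin w → Finset E} {N : Fin tau → Finset E} (hN : Trees a b N)
    (hNP : Disjoint (un N) (un P))
    (hlam : ∀ Y : Finset V, Y.Nonempty → Y ≠ univ → lam ≤ (cut a b Y \ un P).card)
    (hsel : SelAt a b r K E2 s q (s + c) t u lam P)
    (h1 : lam' + F ≤ lam + 2 * (q + c)) (h2 : lam' ≤ lam + u + 1 + q) :
    State a b s (tau + q) lam' := by
  classical
  obtain ⟨C, D, hC, hD, hCP, hDP, hCD, hround⟩ := hsel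
  refine ⟨C, Fin.append N D, hC, ?_, ?_, ?_⟩
  · exact trees_append hN hD (hNP.mono_right hDP)
  · rw [un_append, disjoint_union_left]
    exact ⟨hNP.mono_right hCP, hCD.symm⟩
  -- the cuts
  have key : ∀ Y : Finset V, Y.Nonempty → r ∉ Y → lam' ≤ (cut a b Y \ un C).card := by
    intro X hX hr
    have hXu : X ≠ univ := fun h => hr (h ▸ mem_univ r)
    have hsum : ∀ F : Finset E, (cut a b X \ F).card + (F ∩ cut a b X).card =
        (cut a b X).card := by
      intro F
      rw [inter_comm]
      exact card_sdiff_add_card_inter _ _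
    by_cases hw : (cut a b X \ un P).card ≤ lam + u
    · have hr1 := hround X hX hr hw
      have hcX := hcut X hX hXu
      have hs1 := hsum (un P)
      have hs2 := hsum (un C)
      have h4 : (un C ∩ cut a b X).card ≤ (un P ∩ cut a b X).card :=
        card_le_card (inter_subset_inter_right hCP)
      have h5 := near_num (x := q + c) ht hK hst h4 hr1 (m := m) (lam := lam)
        (dR := (cut a b X \ un P).card) (F := F) (by omega) (hlam X hX hXu) (by omega) hE
      omega
    · push Not at hw
      have h3 : (cut a b X \ un P) ∪ (un D ∩ cut a b X) ⊆ cut a b X \ un C := by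
        intro e he
        rcases mem_union.1 he with he | he
        · rw [mem_sdiff] at he ⊢
          exact ⟨he.1, fun h => he.2 (hCP h)⟩
        · rw [mem_inter] at he
          rw [mem_sdiff]
          exact ⟨he.2, fun h => disjoint_left.1 hCD h he.1⟩
      have h4 : Disjoint (cut a b X \ un P) (un D ∩ cut a b X) := by
        rw [disjoint_left]
        intro e he hf
        exact (mem_sdiff.1 he).2 (hDP (mem_inter.1 hf).1)
      have h5 := card_le_card h3
      rw [card_union_of_disjoint h4] at h5
      have h6 := trees_cut hD hX hXu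
      omega
  intro Y hY hYu
  by_cases hr : r ∈ Y
  · rw [← cnt_cut_compl]
    apply key
    · rw [nonempty_iff_ne_empty]
      intro h
      exact hYu (compl_eq_empty_iff Y |>.1 h)
    · simpa using hr
  · exact key Y hY hr

/-- fewer trees outside and a smaller bound are enough -/
theorem State.mono' {al nu nu' lam lam' : ℕ} (h : nu' ≤ nu) (h' : lam' ≤ lam)
    (hst : State a b al nu lam) : State a b al nu' lam' := by
  obtain ⟨P, N, hP, hN, hNP, hlam⟩ := hst
  have hsub : un (fun i : Fin nu' => N (Fin.castLE h i)) ⊆ un N := by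
    intro e he
    obtain ⟨i, hi⟩ := mem_un.1 he
    exact mem_un.2 ⟨_, hi⟩
  refine ⟨P, fun i => N (Fin.castLE h i), hP, ⟨fun i => hN.1 _, fun i j hij => hN.2 _ _ ?_⟩,
    hNP.mono_left hsub, fun Y h1 h2 => h'.trans (hlam Y h1 h2)⟩
  intro hh
  exact hij (Fin.castLE_injective h hh)

/-- the start: `x` of the `m` trees are outside -/
theorem start (hV : Nonempty V) {m x : ℕ} (hm : 0 < m) (hx : x ≤ m)
    (hcut : ∀ Y : Finset V, Y.Nonempty → Y ≠ univ → 2 * m ≤ (cut a b Y).card) :
    State a b (m - x) x x := by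
  obtain ⟨P, N, hP, -, -, -⟩ := State.start (a := a) (b := b) hV hm hcut
  have hd : ∀ (i : Fin (m - x)) (j : Fin x), Disjoint (P ⟨i.1, by have := i.2; omega⟩)
      (P ⟨m - x + j.1, by have := j.2; omega⟩) := by
    intro i j
    apply hP.2
    intro hh
    have h4 := congrArg Fin.val hh
    simp only [] at h4
    have := i.2
    omega
  have hN : Trees a b fun j : Fin x => P ⟨m - x + j.1, by have := j.2; omega⟩ := by
    refine ⟨fun j => hP.1 _, fun i j hij => hP.2 _ _ ?_⟩
    intro hh
    have h4 := congrArg Fin.val hh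
    simp only [] at h4
    exact hij (Fin.ext (by omega))
  have hdd : Disjoint (un fun j : Fin x => P ⟨m - x + j.1, by have := j.2; omega⟩)
      (un fun i : Fin (m - x) => P ⟨i.1, by have := i.2; omega⟩) := by
    rw [disjoint_left]
    intro e h1 h2
    obtain ⟨j, hj⟩ := mem_un.1 h1
    obtain ⟨i, hi⟩ := mem_un.1 h2
    exact disjoint_left.1 (hd i j) hi hj
  refine ⟨fun i => P ⟨i.1, by have := i.2; omega⟩,
    fun j => P ⟨m - x + j.1, by have := j.2; omega⟩, ⟨fun j => hP.1 _, fun i j hij => hP.2 _ _ ?_⟩,
    hN, hdd, ?_⟩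
  · intro hh
    have h4 := congrArg Fin.val hh
    simp only [] at h4
    exact hij (Fin.ext (by omega))
  · intro Y hY hYu
    refine (trees_cut hN hY hYu).trans (card_le_card ?_)
    intro e he
    rw [mem_inter] at he
    rw [mem_sdiff]
    exact ⟨he.2, disjoint_left.1 hdd he.1⟩

end Pool.Agent.Lib.MP_21a058_co.Lim
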