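import Pool.Agent.Lib.MP_21a058_co.Lim.Round
import Pool.Agent.Lib.MP_21a058_co.Lim.Pieces
import Pool.Agent.Lib.MP_21a058_co.Lim.NearP
import Pool.Agent.Lib.MP_21a058_co.Lim.Chunk
import Pool.Agent.Lib.MP_21a058_co.Lim.Query
import Pool.Agent.Lib.MP_21a058_co.Duo.Fin4
import Pool.Agent.Lib.MP_21a058_co.Z.Atoms

/-! MP_21a058_co, the limit theorem: the selection of one round. The near sets are disjoint
unions of few strong pieces; the pieces are cut rows and the edges between them are covered by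
block rows of the rounding theorem. -/

set_option autoImplicit false

namespace Pool.Agent.Lib.MP_21a058_co.Lim

open Finset
open Pool.Agent.Lib.MP_21a058_co.P Pool.Agent.Lib.MP_21a058_co.Every
open Pool.Agent.Lib.MP_21a058_co.Swap Pool.Agent.Lib.MP_21a058_co.Iter

variable {V E : Type} [Fintype V] [DecidableEq V] [Fintype E] [DecidableEq E]

/-- the edges outside the pool at a cut, in the two notations -/
theorem dl_compl (a b : E → V) (F : Finset E) (Y : Finset V) :
    Thin.dl a b Fᶜ Y = cut a b Y \ F := by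
  classical
  ext e
  unfold Thin.dl
  simp only [mem_filter, mem_compl, mem_sdiff, mem_cut]
  tauto

/-- the numbers of the selection: `Qc` pieces, `dC` kept, `dB` and `dP` edges at the cut -/
theorem sel_num {K E2 t th L σ A0 Z Qc dC dB dP : ℕ} (hL : 0 < L) (hth : 0 < th)
    (hnum : A0 * K * Z ≤ E2 * L * th) (hQ : th * Qc ≤ A0 * dP) (hB : dB ≤ dP)
    (h : L * (t * dC) ≤ L * (σ * dB) + t * Qc * Z) :
    K * t * dC ≤ (K * σ + E2 * t) * dP := by
  have h1 : (K * th) * (L * (t * dC)) ≤ (K * th) * (L * (σ * dB) + t * Qc * Z) :=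
    Nat.mul_le_mul_left _ h
  have h2 : (K * t * Z) * (th * Qc) ≤ (K * t * Z) * (A0 * dP) := Nat.mul_le_mul_left _ hQ
  have h3 : (t * dP) * (A0 * K * Z) ≤ (t * dP) * (E2 * L * th) := Nat.mul_le_mul_left _ hnum
  have h4 : (K * th * L * σ) * dB ≤ (K * th * L * σ) * dP := Nat.mul_le_mul_left _ hB
  have h5 : (L * th) * (K * t * dC) ≤ (L * th) * ((K * σ + E2 * t) * dP) := by
    calc (L * th) * (K * t * dC) = (K * th) * (L * (t * dC)) := by ring
      _ ≤ (K * th) * (L * (σ * dB) + t * Qc * Z) := h1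
      _ = (K * th * L * σ) * dB + (K * t * Z) * (th * Qc) := by ring
      _ ≤ (K * th * L * σ) * dP + (K * t * Z) * (A0 * dP) := Nat.add_le_add h4 h2
      _ = (K * th * L * σ) * dP + (t * dP) * (A0 * K * Z) := by ring
      _ ≤ (K * th * L * σ) * dP + (t * dP) * (E2 * L * th) := Nat.add_le_add_left h3 _
      _ = (L * th) * ((K * σ + E2 * t) * dP) := by ring
  exact Nat.le_of_mul_le_mul_left h5 (Nat.mul_pos hL hth)

/-- **the selection of one round** -/
theorem selAt {V E : Type} [Fintype V] [DecidableEq V] [Fintype E] [DecidableEq E]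
    (a b : E → V) (r : V) {w tau t lam u p s q c h C9 L K E2 : ℕ}
    (ht : 0 < t) (htw : t < w) (hst : s + c + (q + c) = t) (hh : 48 * (2 ^ p + 1) ≤ h)
    (h9 : 2 * (2 ^ p + 1) * t ≤ C9 * h) (hc : 16 + 4 * C9 ≤ c + 1) (hch : c + 1 ≤ h)
    (hL : 0 < L) (hp : (p + 1) * (lam + p * u) < 2 * tau * p)
    (hnum : p * 2 ^ p * K * (2 * L * L + L * h + 2 * h * t) ≤ E2 * L * (w - t))
    (P : Fin w → Finset E) (hP : Trees a b P) (N : Fin tau → Finset E) (hN : Trees a b N)
    (hNP : Disjoint (un N) (un P))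
    (hlam : ∀ Y : Finset V, Y.Nonempty → Y ≠ univ → lam ≤ (cut a b Y \ un P).card) :
    SelAt a b r K E2 s q (s + c) t u lam P := by
  classical
  obtain ⟨Fm, B, hB, hBP, hBT, hnear⟩ :=
    near_pieces_of a b r P N hN hNP hlam hp fun S h1 h2 h3 =>
      pieces_fam a b ⟨r⟩ ht htw.le P hP S h1 h2 h3
  -- colours of the near sets
  obtain ⟨col, hcol⟩ := Thin.atoms_col a b r (un P)ᶜ N
    (by
      intro i e he
      rw [mem_compl]
      exact fun h => disjoint_left.1 hNP (mem_un.2 ⟨i, he⟩) h)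
    hN.2 (fun i => sel_conn a b (hN.1 i).1) lam u p
    (by
      intro X hX hXu
      rw [dl_compl]
      exact hlam X hX hXu)
    hp
  -- the block rows
  obtain ⟨R, hRB, hRc, hRcon, hRmo, hRq⟩ := exists_rows a b Fm.lam (un B) hL
    (univ.filter fun Y : Finset V => Y.Nonempty ∧ r ∉ Y ∧ (cut a b Y \ un P).card ≤ lam + u) col
    (by
      intro X hX Y hY hXY
      simp only [mem_filter, mem_univ, true_and] at hX hY
      refine hcol X Y hX.1 hX.2.1 ?_ hY.1 hY.2.1 ?_ hXY
      · rw [dl_compl]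
        exact hX.2.2
      · rw [dl_compl]
        exact hY.2.2)
  -- the rounding
  obtain ⟨X, C, D, hXB, hC, hD, hCX, hDX, hrow, hblk⟩ := Duo.sel4 a b hst hh h9 hc B hB
    Fm.F Fm.ne Fm.lam (fun Y hY i => (hBT i).2 Y hY) R hRB hRcon hRmo
  refine ⟨C, D, hC, hD, (hCX.trans hXB).trans hBP, (hDX.trans sdiff_subset).trans hBP, ?_, ?_⟩
  · rw [disjoint_left]
    intro e h1 h2
    exact (mem_sdiff.1 (hDX h2)).2 (hCX h1)
  intro Y hY hrY hYn
  obtain ⟨Q, hQ1, hQ2, hQY, hQ4⟩ := hnear Y hY hrY hYn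
  obtain ⟨Bs, hBs0, hBs1, hBs2, hBs3⟩ := hRq Y (by simp [hY, hrY, hYn]) Q
    (fun A hA => (hQ1 A hA).1) hQ2 hQY
  have hq := query a b B hB X Y Q hQ2 hQY (fun Z hZ i => (hBT i).2 Z (hQ1 Z hZ).1) (s + c) h L
    (by omega)
    (by
      intro Z hZ
      refine (hrow Z (hQ1 Z hZ).1).trans ?_
      exact Nat.add_le_add_left (Nat.mul_le_mul_right _ hch) _)
    Bs hBs1 hBs2 (fun β hβ => (hRc β (hBs0 hβ)).ge) hBs3 (fun β hβ => hblk β (hBs0 hβ))
  have h1 : (un C ∩ cut a b Y).card ≤ (X ∩ cut a b Y).card :=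
    card_le_card (inter_subset_inter_right hCX)
  have h2 : (un B ∩ cut a b Y).card ≤ (un P ∩ cut a b Y).card :=
    card_le_card (inter_subset_inter_right hBP)
  refine sel_num (A0 := p * 2 ^ p) (Qc := Q.card) hL (by omega : 0 < w - t) hnum hQ4 h2 ?_
  refine le_trans ?_ hq
  exact Nat.mul_le_mul_left _ (Nat.mul_le_mul_left _ h1)

end Pool.Agent.Lib.MP_21a058_co.Lim
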